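import Pool.Agent.Run7.h79.FJ.Tor
import Pool.Agent.Run7.h370.RA.Hyp

/-!
# Homomorphisms to the rational numbers and centralizers in amalgamated products

`P` is the amalgamated product of `Q` and `A × L` along the subgroup `L` of `Q`.
-/

set_option autoImplicit false

namespace Run7.h79.FY

open Monoid Run7.h79.FJ Pool.Agent.Y43.CH Run7.h370.RA
open Pool.Agent.Y110.FJ (permAut)

section defs

/-- the set on which `A × Q` acts -/
def XX (A Q : Type) [Group Q] (L : Subgroup Q) : Type := A × (Q ⧸ L)

instance xxAct (A Q : Type) [Group A] [Group Q] (L : Subgroup Q) : MulAction (A × Q) (XX A Q L) where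
  smul r x := (r.1 * x.1, r.2 • x.2)
  one_smul x := by
    show ((1 : A) * x.1, (1 : Q) • x.2) = x
    rw [one_mul, one_smul]
    rfl
  mul_smul r s x := by
    show (r.1 * s.1 * x.1, (r.2 * s.2) • x.2) = (r.1 * (s.1 * x.1), r.2 • (s.2 • x.2))
    rw [mul_assoc, mul_smul]

variable {A Q : Type} [Group A] [Group Q] (L : Subgroup Q)

theorem smul_def' (r : A × Q) (x : XX A Q L) : r • x = (r.1 * x.1, r.2 • x.2) := rfl

/-- the base point -/
def x0 : XX A Q L := ((1 : A), QuotientGroup.mk 1)

variable (A) in
/-- the embeddings of the amalgamated subgroup -/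
def ph : ∀ b, L →* Fam Q (A × L) b := famHom L.subtype (MonoidHom.inr A L)

variable (A) in
theorem ph_inj : ∀ b, Function.Injective (ph A L b) := by
  intro b
  cases b
  · exact fun a b hab => congrArg Prod.snd hab
  · exact L.subtype_injective

theorem act_x0 (a : A) (q : Q) : ((a, q) : A × Q) • x0 (A := A) L = (a, QuotientGroup.mk q) := by
  rw [smul_def']
  show (a * 1, _) = _
  rw [mul_one]
  refine Prod.ext rfl ?_
  show q • (QuotientGroup.mk 1 : Q ⧸ L) = _
  exact congrArg QuotientGroup.mk (mul_one q)

theorem fix_x0 (a : A) (q : Q) : ((a, q) : A × Q) • x0 (A := A) L = x0 L ↔ a = 1 ∧ q ∈ L := by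
  rw [act_x0]
  constructor
  · intro h
    have h1 : a = 1 := congrArg Prod.fst h
    have h2 : (QuotientGroup.mk q : Q ⧸ L) = QuotientGroup.mk 1 := congrArg Prod.snd h
    refine ⟨h1, ?_⟩
    have h3 := QuotientGroup.eq.1 h2.symm
    rwa [inv_one, one_mul] at h3
  · rintro ⟨rfl, h⟩
    refine Prod.ext rfl ?_
    exact (QuotientGroup.eq.2 (by rwa [inv_one, one_mul])).symm

/-- the big semidirect product -/
abbrev SS (A : Type) [Group A] : Type := Sd (XX A Q L) (A × Q)

/-- the basis element of the base point -/
def yy : FreeGroup (XX A Q L) := FreeGroup.of (x0 L)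

theorem perm_yy (r : A × Q) : permAut (XX A Q L) (A × Q) r (yy L) = FreeGroup.of (r • x0 L) := rfl

theorem conj_inr (r : A × Q) : (MulAut.conj (SemidirectProduct.inl (yy L) : SS L A))
    (SemidirectProduct.inr r) = SemidirectProduct.inl (yy L * (FreeGroup.of (r • x0 L))⁻¹) *
      SemidirectProduct.inr r := by
  rw [MulAut.conj_apply, ← perm_yy, map_mul, map_inv]
  have h1 := SemidirectProduct.inl_aut (φ := permAut (XX A Q L) (A × Q)) r (yy L)
  rw [h1, map_inv]
  group

/-- the homomorphisms on the factors -/
noncomputable def jf : ∀ b, Fam Q (A × L) b →* SS L A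
  | true => (SemidirectProduct.inr (φ := permAut (XX A Q L) (A × Q))).comp (MonoidHom.inr A Q)
  | false => (MulAut.conj (SemidirectProduct.inl (yy L) : SS L A)).toMonoidHom.comp
      ((SemidirectProduct.inr (φ := permAut (XX A Q L) (A × Q))).comp
        (MonoidHom.prodMap (MonoidHom.id A) L.subtype))

theorem jf_ph (b : Bool) : (jf (A := A) L b).comp (ph A L b) =
    ((SemidirectProduct.inr (φ := permAut (XX A Q L) (A × Q))).comp (MonoidHom.inr A Q)).comp
      L.subtype := by
  cases b
  · ext1 l
    show (MulAut.conj (SemidirectProduct.inl (yy L) : SS L A)) (SemidirectProduct.inr (1, l.1)) =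
      SemidirectProduct.inr (1, l.1)
    rw [conj_inr, (fix_x0 L 1 l.1).2 ⟨rfl, l.2⟩]
    show SemidirectProduct.inl (yy L * (yy L)⁻¹) * _ = _
    rw [mul_inv_cancel, map_one, one_mul]
  · rfl

/-- the homomorphism to the semidirect product -/
noncomputable def JJ : PushoutI (ph A L) →* SS L A :=
  PushoutI.lift (jf L) _ (jf_ph L)

theorem JJ_of (b : Bool) (x : Fam Q (A × L) b) : JJ L (PushoutI.of (φ := ph A L) b x) = jf L b x :=
  PushoutI.lift_of _ _ (jf_ph L) (i := b) x

/-- the action on words -/
def aw (r : A × Q) (w : List (XX A Q L × Bool)) : List (XX A Q L × Bool) :=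
  w.map fun a => (r • a.1, a.2)

/-- the word of a list of syllables -/
def W : List (Σ b, Fam Q (A × L) b) → List (XX A Q L × Bool)
  | [] => []
  | ⟨true, q⟩ :: M => aw L ((1 : A), (q : Q)) (W M)
  | ⟨false, p⟩ :: M => (x0 L, true) :: (((p : A × L).1, ((p : A × L).2 : Q)) • x0 L, false) ::
      aw L ((p : A × L).1, ((p : A × L).2 : Q)) (W M)

theorem W_left (M : List (Σ b, Fam Q (A × L) b)) : (JJ L (pr (ph A L) M)).left =
    FreeGroup.mk (W L M) := by
  induction M with
  | nil =>
    rw [pr_nil, map_one]
    rfl
  | cons s M ih =>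
    rw [pr_cons, map_mul, SemidirectProduct.mul_left, JJ_of, ih]
    obtain ⟨b, p⟩ := s
    cases b
    · obtain ⟨r, hr⟩ : ∃ r : A × Q, r = ((p : A × L).1, ((p : A × L).2 : Q)) := ⟨_, rfl⟩
      have h1 : jf L false p = SemidirectProduct.inl (yy L *
          (FreeGroup.of (r • x0 L))⁻¹) * SemidirectProduct.inr r := by
        rw [hr]
        exact conj_inr L _
      have h2 : W L (⟨false, p⟩ :: M) = (x0 L, true) :: (r • x0 L, false) :: aw L r (W L M) := by
        rw [hr]
        rfl
      rw [h1, h2, SemidirectProduct.mul_left, SemidirectProduct.mul_right,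
        SemidirectProduct.left_inl, SemidirectProduct.right_inl, SemidirectProduct.left_inr,
        SemidirectProduct.right_inr, map_one, mul_one, one_mul, permAut_mk]
      rfl
    · show (1 : FreeGroup (XX A Q L)) * permAut (XX A Q L) (A × Q) ((1 : A), (p : Q))
        (FreeGroup.mk (W L M)) = _
      rw [one_mul, permAut_mk]
      rfl

theorem aw_red (r : A × Q) {w : List (XX A Q L × Bool)} (h : FreeGroup.IsReduced w) :
    FreeGroup.IsReduced (aw L r w) := by
  unfold FreeGroup.IsReduced aw at *
  rw [List.isChain_map]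
  refine h.imp ?_
  intro a b hab h
  exact hab (MulAction.injective r h)

theorem aw_len (r : A × Q) (w : List (XX A Q L × Bool)) : (aw L r w).length = w.length :=
  List.length_map _

theorem W_head (M : List (Σ b, Fam Q (A × L) b)) (h : Red (ph A L) M)
    (hh : ∀ y ∈ M.head?, y.1 ≠ true) : ∀ z ∈ (W L M).head?, z = (x0 L, true) := by
  cases M with
  | nil =>
    intro z hz
    simp [W] at hz
  | cons s M =>
    obtain ⟨b, p⟩ := s
    cases b
    · intro z hz
      simp only [W, List.head?_cons, Option.mem_def, Option.some.injEq] at hz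
      exact hz.symm
    · exact absurd rfl (hh ⟨true, p⟩ rfl)

theorem W_head_true (q : Q) (M : List (Σ b, Fam Q (A × L) b))
    (h : Red (ph A L) (⟨true, q⟩ :: M)) :
    ∀ z ∈ (W L (⟨true, q⟩ :: M)).head?, z = (((1 : A), q) • x0 L, true) := by
  intro z hz
  have h1 := W_head L M h.tail h.head_ne
  simp only [W, aw, List.head?_map, Option.mem_def, Option.map_eq_some_iff] at hz
  obtain ⟨y, hy, rfl⟩ := hz
  rw [h1 y hy]

theorem W_red (M : List (Σ b, Fam Q (A × L) b)) (h : Red (ph A L) M) :
    FreeGroup.IsReduced (W L M) := by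
  induction M with
  | nil => exact List.IsChain.nil
  | cons s M ih =>
    have h1 := ih h.tail
    obtain ⟨b, p⟩ := s
    cases b
    · obtain ⟨a, l⟩ : A × L := p
      have ha : a ≠ 1 := by
        intro ha
        apply h.1 ⟨false, (a, l)⟩ (List.mem_cons_self)
        subst ha
        exact ⟨l, rfl⟩
      show FreeGroup.IsReduced ((x0 L, true) :: ((a, (l : Q)) • x0 L, false) ::
        aw L (a, (l : Q)) (W L M))
      unfold FreeGroup.IsReduced
      rw [List.isChain_cons_cons]
      refine ⟨?_, ?_⟩
      · intro h2
        exact absurd ((fix_x0 L a l).1 h2.symm).1 ha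
      · have h3 := aw_red L (a, (l : Q)) h1
        cases M with
        | nil => exact List.isChain_singleton _
        | cons t M' =>
          obtain ⟨b', p'⟩ := t
          cases b'
          · exact absurd rfl (h.head_ne ⟨false, p'⟩ rfl)
          · obtain ⟨q, hq⟩ : ∃ q : Q, q = p' := ⟨p', rfl⟩
            subst hq
            have h4 := W_head_true L q M' h.tail
            cases hw : W L (⟨true, q⟩ :: M') with
            | nil =>
              exact List.isChain_singleton _
            | cons z t =>
              rw [hw] at h3 h4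
              have hz : z = (((1 : A), q) • x0 L, true) := h4 z rfl
              show List.IsChain _ (_ :: ((a, (l : Q)) • z.1, z.2) :: aw L (a, (l : Q)) t)
              rw [List.isChain_cons_cons]
              refine ⟨?_, h3⟩
              intro h5
              exfalso
              have h6 : x0 L = z.1 := MulAction.injective (a, (l : Q)) h5
              rw [hz] at h6
              have h7 := ((fix_x0 L (1 : A) q).1 h6.symm).2
              apply h.1 ⟨true, q⟩ (List.mem_cons_of_mem _ List.mem_cons_self)
              exact ⟨⟨_, h7⟩, rfl⟩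
    · exact aw_red L _ h1

theorem W_len (M : List (Σ b, Fam Q (A × L) b)) (h : Red (ph A L) M) :
    M.length ≤ (W L M).length + 1 ∧ ((∀ y ∈ M.head?, y.1 ≠ true) → M.length ≤ (W L M).length) := by
  induction M with
  | nil => exact ⟨by simp, fun _ => by simp⟩
  | cons s M ih =>
    have h1 := ih h.tail
    obtain ⟨b, p⟩ := s
    cases b
    · have h2 : (W L (⟨false, p⟩ :: M)).length = (W L M).length + 2 := by
        show (_ :: _ :: aw L _ (W L M)).length = _
        rw [List.length_cons, List.length_cons, aw_len]
      rw [h2, List.length_cons]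
      exact ⟨by omega, fun _ => by omega⟩
    · have h2 : (W L (⟨true, p⟩ :: M)).length = (W L M).length := aw_len L _ _
      have h3 := h1.2 h.head_ne
      rw [h2, List.length_cons]
      exact ⟨by omega, fun h4 => absurd rfl (h4 ⟨true, p⟩ rfl)⟩

end defs

end Run7.h79.FY
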