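import Pool.Agent.Run7.h79.FY.Amal

/-!
# Centralizers in amalgamated products and homomorphisms to the rational numbers
-/

set_option autoImplicit false

namespace Run7.h79.FY

open Monoid Run7.h79.FJ Pool.Agent.Y43.CH Run7.h370.RA
open Pool.Agent.Y110.FJ (permAut)

/-- the rational numbers -/
abbrev QQ : Type := Multiplicative ℚ

/-- homomorphisms to the rational numbers which vanish at a nontrivial element vanish on its
centralizer -/
def Comm1 (A : Type) [Group A] : Prop :=
  ∀ a b : A, a ≠ 1 → a * b = b * a → ∀ f : A →* QQ, f a = 1 → f b = 1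

theorem qq_pow {x : QQ} {n : ℤ} (hn : n ≠ 0) (h : x ^ n = 1) : x = 1 := by
  have h1 : n • (Multiplicative.toAdd x) = 0 := h
  rw [zsmul_eq_mul, mul_eq_zero] at h1
  rcases h1 with h1 | h1
  · exact absurd (Int.cast_eq_zero.1 h1) hn
  · exact h1

theorem qq_conj {G : Type} [Group G] (f : G →* QQ) (c g : G) : f (c⁻¹ * g * c) = f g := by
  rw [map_mul, map_mul, map_inv, mul_comm, ← mul_assoc, mul_inv_cancel, one_mul]

section

variable {A Q : Type} [Group A] [Group Q] (L : Subgroup Q)

/-- conjugates of elements of the second factor have powers of bounded length -/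
theorem conj_bound [DecidableEq (XX A Q L)] (n : SS L A) (r : A × Q) :
    (n * SemidirectProduct.inr r * n⁻¹).left.norm ≤ 2 * n.left.norm := by
  have h1 : (n * SemidirectProduct.inr r * n⁻¹).left = n.left *
      permAut (XX A Q L) (A × Q) (n.right * r) (n⁻¹).left := by
    rw [SemidirectProduct.mul_left, SemidirectProduct.mul_left, SemidirectProduct.mul_right,
      SemidirectProduct.left_inr, SemidirectProduct.right_inr, map_one, mul_one]
  rw [h1]
  refine (FreeGroup.norm_mul_le _ _).trans ?_
  rw [permAut_norm, SemidirectProduct.inv_left, permAut_norm, FreeGroup.norm_inv_eq]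
  omega

theorem rep_len {b : Bool → Type} (M : List (Σ i, b i)) (n : ℕ) : (rep M n).length = n * M.length := by
  induction n with
  | zero => rw [zero_mul]; rfl
  | succ n ih => rw [rep, List.length_append, ih]; ring

/-- cyclically reduced words of length at least two are hyperbolic -/
theorem hyperbolic (M : List (Σ b, Fam Q (A × L) b)) (hM : 2 ≤ M.length)
    (h : ∀ n, Red (ph A L) (rep M n)) (n : SS L A) :
    (n⁻¹ * JJ L (pr (ph A L) M) * n).left ≠ 1 := by
  classical
  intro h1
  obtain ⟨r, hr⟩ : ∃ r : A × Q, n⁻¹ * JJ L (pr (ph A L) M) * n = SemidirectProduct.inr r :=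
    ⟨(n⁻¹ * JJ L (pr (ph A L) M) * n).right, SemidirectProduct.ext h1 rfl⟩
  have h2 : JJ L (pr (ph A L) M) = n * SemidirectProduct.inr r * n⁻¹ := by
    rw [← hr]
    group
  obtain ⟨m, hm⟩ : ∃ m, m = n.left.norm + 1 := ⟨_, rfl⟩
  have h3 : JJ L (pr (ph A L) (rep M m)) = n * SemidirectProduct.inr (r ^ m) * n⁻¹ := by
    rw [pr_rep, map_pow, h2, conj_pow, map_pow]
  have h4 := conj_bound L n (r ^ m)
  rw [← h3, W_left, FreeGroup.norm, FreeGroup.toWord_mk, (W_red L _ (h m)).reduce_eq] at h4
  have h5 := (W_len L _ (h m)).1
  rw [rep_len] at h5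
  have h6 : m * 2 ≤ m * M.length := Nat.mul_le_mul_left _ hM
  omega

/-- **centralizers in the amalgamated product** -/
theorem cent_P (hA : Comm1 A) (f : PushoutI (ph A L) →* QQ)
    (hf : ∀ l : L, f (PushoutI.of (φ := ph A L) true (l : Q)) = 1) (g k : PushoutI (ph A L))
    (hfg : f g = 1) (hgk : g * k = k * g)
    (hgQ : ∀ (c : PushoutI (ph A L)) (q : Q), c⁻¹ * g * c ≠ PushoutI.of (φ := ph A L) true q) :
    f k = 1 := by
  obtain ⟨c, M, hM, hM2⟩ := exists_red_conj g
  obtain ⟨g', hg'⟩ : ∃ g', g' = c⁻¹ * g * c := ⟨_, rfl⟩
  obtain ⟨k', hk'⟩ : ∃ k', k' = c⁻¹ * k * c := ⟨_, rfl⟩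
  have hfg' : f g' = 1 := by rw [hg', qq_conj, hfg]
  have hgk' : g' * k' = k' * g' := by
    rw [hg', hk']
    have e1 : c⁻¹ * g * c * (c⁻¹ * k * c) = c⁻¹ * (g * k) * c := by group
    have e2 : c⁻¹ * k * c * (c⁻¹ * g * c) = c⁻¹ * (k * g) * c := by group
    rw [e1, e2, hgk]
  rw [← hg'] at hM
  have hgQ' : ∀ q : Q, g' ≠ PushoutI.of (φ := ph A L) true q := by
    intro q
    rw [hg']
    exact hgQ c q
  rw [← qq_conj f c k, ← hk']
  clear hgQ hgk hfg
  by_cases hle : M.length ≤ 1
  · match M, hle with
    | [], _ =>
      exfalso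
      apply hgQ' 1
      rw [← hM, pr_nil]
      exact (map_one (PushoutI.of (φ := ph A L) true)).symm
    | [⟨true, q⟩], _ =>
      exfalso
      apply hgQ' q
      rw [← hM, pr_cons, pr_nil, mul_one]
    | [⟨false, p⟩], _ =>
      obtain ⟨a, l⟩ : A × L := p
      rw [pr_cons, pr_nil, mul_one] at hM
      have ha : a ≠ 1 := by
        intro ha
        apply hgQ' l
        rw [← hM]
        subst ha
        have h1 := PushoutI.of_apply_eq_base (ph A L) true l
        have h2 := PushoutI.of_apply_eq_base (ph A L) false l
        exact h2.trans h1.symm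
      have h1 : k' ∈ (PushoutI.of (φ := ph A L) false).range := by
        refine conj_factor (ph_inj A L) (i := false) (x := ((a, l) : A × L)) ?_ (b := false) ?_
        · intro u
          rintro ⟨l', hl'⟩
          obtain ⟨u1, u2⟩ : A × L := u
          apply ha
          have h3 : (1 : A) = u1⁻¹ * a * u1 := congrArg (fun z : A × L => z.1) hl'
          have h4 : a = u1 * (u1⁻¹ * a * u1) * u1⁻¹ := by group
          rw [h4, ← h3]
          group
        · refine ⟨((a, l) : A × L), ?_⟩
          show PushoutI.of (φ := ph A L) false ((a, l) : A × L) =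
            k'⁻¹ * PushoutI.of (φ := ph A L) false ((a, l) : A × L) * k'
          have h3 : g' = PushoutI.of (φ := ph A L) false ((a, l) : A × L) := hM.symm
          rw [← h3, mul_assoc, hgk']
          group
      obtain ⟨z, hz⟩ := h1
      obtain ⟨a', l'⟩ : A × L := z
      have h5 : a * a' = a' * a := by
        have h6 : PushoutI.of (φ := ph A L) false (((a, l) : A × L) * ((a', l') : A × L) : A × L) =
            PushoutI.of (φ := ph A L) false (((a', l') : A × L) * ((a, l) : A × L) : A × L) := by
          have h7 : PushoutI.of (φ := ph A L) false ((a, l) : A × L) *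
            PushoutI.of (φ := ph A L) false ((a', l') : A × L) =
            PushoutI.of (φ := ph A L) false ((a', l') : A × L) *
            PushoutI.of (φ := ph A L) false ((a, l) : A × L) := by
            have h8 : g' = PushoutI.of (φ := ph A L) false ((a, l) : A × L) := hM.symm
            have h9 : k' = PushoutI.of (φ := ph A L) false ((a', l') : A × L) := hz.symm
            rw [← h8, ← h9]
            exact hgk'
          exact (map_mul _ _ _).trans (h7.trans (map_mul _ _ _).symm)
        have h7 := PushoutI.of_injective (ph_inj A L) false h6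
        exact congrArg (fun z : A × L => z.1) h7
      -- the homomorphism on the second factor
      have hfl : ∀ (x : A) (y : L), f (PushoutI.of (φ := ph A L) false ((x, y) : A × L)) =
          f (PushoutI.of (φ := ph A L) false ((x, 1) : A × L)) := by
        intro x y
        have h8 : ((x, y) : A × L) = ((x, 1) : A × L) * ((1, y) : A × L) := by
          rw [Prod.mk_mul_mk, mul_one, one_mul]
        have h9 : PushoutI.of (φ := ph A L) false ((x, y) : A × L) =
          PushoutI.of (φ := ph A L) false ((x, 1) : A × L) *
          PushoutI.of (φ := ph A L) false ((1, y) : A × L) := by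
          rw [h8]
          exact map_mul _ _ _
        have h10 : f (PushoutI.of (φ := ph A L) false ((1, y) : A × L)) = 1 := by
          have h1 := PushoutI.of_apply_eq_base (ph A L) true y
          have h2 := PushoutI.of_apply_eq_base (ph A L) false y
          have h3 : PushoutI.of (φ := ph A L) false ((1, y) : A × L) =
            PushoutI.of (φ := ph A L) true (y : Q) := h2.trans h1.symm
          rw [h3]
          exact hf y
        rw [h9, map_mul, h10, mul_one]
      obtain ⟨F, hF⟩ : ∃ F : A →* QQ, ∀ x, F x = f (PushoutI.of (φ := ph A L) false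
          ((x, 1) : A × L)) := ⟨f.comp ((PushoutI.of (φ := ph A L) false).comp
            (MonoidHom.inl A L)), fun x => rfl⟩
      have h11 : F a = 1 := by
        rw [hF, ← hfl a l]
        exact (congrArg f hM).trans hfg'
      have h12 : f k' = F a' := by
        rw [hF, ← hfl a' l']
        exact (congrArg f hz).symm
      rw [h12]
      exact hA a a' ha h5 F h11
  · have hred := hM2.resolve_left hle
    have hlen : 2 ≤ M.length := by omega
    have hJ : JJ L g' * JJ L k' = JJ L k' * JJ L g' := by
      rw [← map_mul, hgk', map_mul]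
    obtain ⟨a, b, n, x, ha, h1, h2⟩ := hyp (JJ L g') (JJ L k') hJ (by
      intro n
      rw [← hM]
      exact hyperbolic L M hlen hred n)
    -- the homomorphism on the semidirect product
    let F : A × Q →* QQ := MonoidHom.coprod
      (f.comp ((PushoutI.of (φ := ph A L) false).comp (MonoidHom.inl A L)))
      (f.comp (PushoutI.of (φ := ph A L) true))
    have hF1 : ∀ (x : A) (y : Q), F (x, y) = f (PushoutI.of (φ := ph A L) false ((x, 1) : A × L)) *
        f (PushoutI.of (φ := ph A L) true y) := fun x y => rfl
    obtain ⟨E, hE⟩ : ∃ E : SS L A →* QQ, ∀ z, E z = F z.right :=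
      ⟨F.comp SemidirectProduct.rightHom, fun z => rfl⟩
    have hEJ : ∀ z, E (JJ L z) = f z := by
      have h3 : E.comp (JJ L) = f := by
        apply PushoutI.hom_ext_nonempty
        intro b
        ext y
        show E (JJ L (PushoutI.of (φ := ph A L) b y)) = f (PushoutI.of (φ := ph A L) b y)
        rw [JJ_of]
        cases b
        · obtain ⟨a, l⟩ : A × L := y
          have h4 : jf L false ((a, l) : A × L) = (SemidirectProduct.inl (yy L) : SS L A) *
            SemidirectProduct.inr ((a, (l : Q)) : A × Q) * (SemidirectProduct.inl (yy L) : SS L A)⁻¹ :=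
            rfl
          have h5 : E (jf L false ((a, l) : A × L)) = F (a, (l : Q)) := by
            rw [h4, map_mul, map_mul, map_inv, mul_comm, ← mul_assoc, inv_mul_cancel, one_mul, hE,
              SemidirectProduct.right_inr]
          refine h5.trans ?_
          rw [hF1, hf, mul_one]
          have h8 : ((a, l) : A × L) = ((a, 1) : A × L) * ((1, l) : A × L) := by
            rw [Prod.mk_mul_mk, mul_one, one_mul]
          have h9 : PushoutI.of (φ := ph A L) false ((a, l) : A × L) =
            PushoutI.of (φ := ph A L) false ((a, 1) : A × L) *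
            PushoutI.of (φ := ph A L) false ((1, l) : A × L) := by
            rw [h8]
            exact map_mul _ _ _
          have h10 : f (PushoutI.of (φ := ph A L) false ((1, l) : A × L)) = 1 := by
            have h1 := PushoutI.of_apply_eq_base (ph A L) true l
            have h2 := PushoutI.of_apply_eq_base (ph A L) false l
            have h3 : PushoutI.of (φ := ph A L) false ((1, l) : A × L) =
              PushoutI.of (φ := ph A L) true (l : Q) := h2.trans h1.symm
            rw [h3]
            exact hf l
          show _ = f (PushoutI.of (φ := ph A L) false ((a, l) : A × L))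
          rw [h9, map_mul, h10, mul_one]
        · obtain ⟨q, hq⟩ : ∃ q : Q, q = y := ⟨y, rfl⟩
          subst hq
          have h4 : jf (A := A) L true q = (SemidirectProduct.inr ((1, q) : A × Q) : SS L A) := rfl
          rw [h4, hE, SemidirectProduct.right_inr, hF1]
          have h5 : f (PushoutI.of (φ := ph A L) false ((1, 1) : A × L)) = 1 := by
            have h6 : PushoutI.of (φ := ph A L) false ((1, 1) : A × L) = 1 :=
              map_one (PushoutI.of (φ := ph A L) false)
            rw [h6, map_one]
          rw [h5, one_mul]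
      exact fun z => DFunLike.congr_fun h3 z
    obtain ⟨p, hp⟩ : ∃ p, p = n⁻¹ * (JJ L k' ^ a * JJ L g' ^ b) * n := ⟨_, rfl⟩
    rw [← hp] at h1 h2
    have h3 : E p = f k' ^ (a : ℤ) := by
      rw [hp, qq_conj, map_mul, map_pow, map_zpow, hEJ, hEJ, hfg', one_zpow, mul_one, zpow_natCast]
    obtain ⟨⟨x1, x2⟩, hx⟩ : ∃ x' : A × (Q ⧸ L), x = x' := ⟨x, rfl⟩
    subst hx
    obtain ⟨⟨r1, r2⟩, hr⟩ : ∃ r : A × Q, r = p.right := ⟨_, rfl⟩
    rw [← hr] at h2
    have h4 : r1 * x1 = x1 := congrArg Prod.fst h2
    have h5 : r2 • x2 = x2 := congrArg Prod.snd h2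
    have h6 : r1 = 1 := by
      have := mul_right_cancel (h4.trans (one_mul x1).symm)
      exact this
    have h7 : E p = 1 := by
      rw [hE, ← hr, hF1, h6]
      have h8 : PushoutI.of (φ := ph A L) false ((1, 1) : A × L) = 1 :=
        map_one (PushoutI.of (φ := ph A L) false)
      rw [h8, map_one, one_mul]
      induction x2 using QuotientGroup.induction_on with
      | H c =>
        have h9 : (QuotientGroup.mk (r2 * c) : Q ⧸ L) = QuotientGroup.mk c := h5
        have h10 := QuotientGroup.eq.1 h9.symm
        have h11 := hf ⟨_, h10⟩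
        have h12 : f (PushoutI.of (φ := ph A L) true (c⁻¹ * (r2 * c) : Q)) = 1 := h11
        have h13 : c⁻¹ * (r2 * c) = c⁻¹ * r2 * c := by rw [mul_assoc]
        rw [h13] at h12
        have h14 := qq_conj (f.comp (PushoutI.of (φ := ph A L) true)) c r2
        exact h14.symm.trans h12
    rw [h7] at h3
    exact qq_pow (by exact_mod_cast ha.ne') h3.symm

end

end Run7.h79.FY
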