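import Pool.Agent.Run7.h79.FJ.Cyc
import Pool.Agent.Q32.DP.KSF
import Pool.Agent.R684.FP.Main

/-!
# Kernels which are free products of infinite cyclic and indecomposable groups
-/

set_option autoImplicit false

namespace Run7.h79.FY

open Monoid Run7.h79.FJ Q30.FJ Pool.Agent.Y110.FJ
open Pool.Agent.R941.FJ (C_equiv C_le C_cyc)

variable {C : ∀ (G : Type) [Group G], Prop}

section loc

variable {G I : Type} [Group G] {B : I → Subgroup G} {M : Subgroup G}

/-- every element of a free product is contained in a finite subproduct -/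
theorem fin_sub (hM : GProd (⊥ : SimpleGraph I) B M) (z : M) :
    ∃ T : Set I, T.Finite ∧ (z : G) ∈ par B T := by
  let D : Subgroup G :=
    { carrier := {x | ∃ T : Set I, T.Finite ∧ x ∈ par B T}
      mul_mem' := by
        rintro x y ⟨T, hT, hx⟩ ⟨T', hT', hy⟩
        exact ⟨T ∪ T', hT.union hT', Subgroup.mul_mem _ (par_mono Set.subset_union_left hx)
          (par_mono Set.subset_union_right hy)⟩
      one_mem' := ⟨∅, Set.finite_empty, Subgroup.one_mem _⟩
      inv_mem' := by
        rintro x ⟨T, hT, hx⟩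
        exact ⟨T, hT, Subgroup.inv_mem _ hx⟩ }
  have h1 : M ≤ D := hM.gen D fun i a ha =>
    ⟨{i}, Set.finite_singleton i, le_par (A := B) (S := {i}) (v := i) rfl ha⟩
  exact h1 z.2

/-- **indecomposable subgroups of free products are conjugate into factors** -/
theorem loc_inf (hM : GProd (⊥ : SimpleGraph I) B M) {A : Type} [Group A]
    (hA : Pool.Agent.Q32.DP.KSF.Good A) (f : A →* M) (hf : Function.Injective f) :
    ∃ (i : I) (c : M), ∀ x, ((c⁻¹ * f x * c : M) : G) ∈ B i := by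
  classical
  obtain ⟨x₀, hx₀⟩ := hA.ne
  obtain ⟨T, hT, hz⟩ := fin_sub hM (f x₀)
  have : Fintype T := hT.fintype
  obtain ⟨e⟩ : Nonempty (Fin (Fintype.card T) ≃ T) := ⟨(Fintype.equivFin T).symm⟩
  obtain ⟨n, hn⟩ : ∃ n, n = Fintype.card T := ⟨_, rfl⟩
  rw [← hn] at e
  obtain ⟨ι, hι⟩ : ∃ ι : Fin n → I, ∀ k, ι k = (e k : I) := ⟨_, fun _ => rfl⟩
  have hιT : ∀ i, (∃ k, ι k = i) ↔ i ∈ T := by
    intro i
    constructor
    · rintro ⟨k, rfl⟩
      rw [hι]
      exact (e k).2
    · intro hi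
      refine ⟨e.symm ⟨i, hi⟩, ?_⟩
      rw [hι, e.apply_symm_apply]
  let K : Fin n → Type := fun k => B (ι k)
  let E : {i // i ∉ T} → Type := fun i => B i.1
  let fi : ∀ i, B i →* Coprod (CoprodI K) (CoprodI E) := fun i =>
    if hi : ∃ k, ι k = i then
      (Coprod.inl : CoprodI K →* _).comp ((CoprodI.of (M := K) (i := hi.choose)).comp
        (Subgroup.inclusion (le_of_eq (congrArg B hi.choose_spec.symm))))
    else (Coprod.inr : CoprodI E →* _).comp (CoprodI.of (M := E) (i := ⟨i, fun h => hi ((hιT i).2 h)⟩))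
  obtain ⟨σ, hσ⟩ := hM.univ (Coprod (CoprodI K) (CoprodI E)) fi (fun v w h => h.elim)
  let τ : Coprod (CoprodI K) (CoprodI E) →* M := Coprod.lift
    (CoprodI.lift fun k => Subgroup.inclusion (hM.le (ι k)))
    (CoprodI.lift fun j => Subgroup.inclusion (hM.le j.1))
  have hτ1 : ∀ (k : Fin n) (b : K k), τ (Coprod.inl (CoprodI.of b)) = ⟨b.1, hM.le (ι k) b.2⟩ := by
    intro k b
    show Coprod.lift _ _ (Coprod.inl (CoprodI.of b)) = _
    rw [Coprod.lift_apply_inl, CoprodI.lift_of]
    rfl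
  have hτ2 : ∀ (j : {i // i ∉ T}) (b : E j), τ (Coprod.inr (CoprodI.of b)) =
      ⟨b.1, hM.le j.1 b.2⟩ := by
    intro j b
    show Coprod.lift _ _ (Coprod.inr (CoprodI.of b)) = _
    rw [Coprod.lift_apply_inr, CoprodI.lift_of]
    rfl
  have hτσ : ∀ x, τ (σ x) = x := by
    have h1 : M ≤ ((τ.comp σ).eqLocus (MonoidHom.id M)).map M.subtype := by
      apply hM.gen
      intro i a ha
      refine ⟨⟨a, hM.le i ha⟩, ?_, rfl⟩
      show τ (σ ⟨a, _⟩) = ⟨a, _⟩
      rw [hσ i ⟨a, ha⟩]
      by_cases hi : ∃ k, ι k = i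
      · have h2 : fi i = (Coprod.inl : CoprodI K →* _).comp
          ((CoprodI.of (M := K) (i := hi.choose)).comp
          (Subgroup.inclusion (le_of_eq (congrArg B hi.choose_spec.symm)))) := dif_pos hi
        rw [h2]
        exact hτ1 _ _
      · have h2 : fi i = (Coprod.inr : CoprodI E →* _).comp
          (CoprodI.of (M := E) (i := ⟨i, fun h => hi ((hιT i).2 h)⟩)) := dif_neg hi
        rw [h2]
        exact hτ2 _ _
    intro x
    obtain ⟨z, hz, hzx⟩ := h1 x.2
    have h2 : z = x := Subtype.ext hzx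
    rw [← h2]
    exact hz
  have hσi : Function.Injective σ := fun x y hxy => by
    rw [← hτσ x, hxy, hτσ]
  have hinl : ∀ x : M, (x : G) ∈ par B T → ∃ c, σ x = Coprod.inl c := by
    have h1 : par B T ≤ (((Coprod.inl : CoprodI K →* Coprod (CoprodI K) (CoprodI E)).range).comap
        σ).map M.subtype := by
      apply par_le
      intro i hi a ha
      refine ⟨⟨a, hM.le i ha⟩, ?_, rfl⟩
      have hk : ∃ k, ι k = i := (hιT i).2 hi
      have h2 : fi i = (Coprod.inl : CoprodI K →* _).comp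
        ((CoprodI.of (M := K) (i := hk.choose)).comp
        (Subgroup.inclusion (le_of_eq (congrArg B hk.choose_spec.symm)))) := dif_pos hk
      have h3 := hσ i ⟨a, ha⟩
      rw [h2] at h3
      exact ⟨_, h3.symm⟩
    intro x hx
    obtain ⟨z, ⟨c, hc⟩, hzx⟩ := h1 hx
    have h2 : z = x := Subtype.ext hzx
    rw [← h2]
    exact ⟨c, hc.symm⟩
  have hinj : Function.Injective (σ.comp f) := hσi.comp hf
  rcases Pool.Agent.Q32.DP.KSF.kur hA (σ.comp f) hinj with ⟨g, u, hu⟩ | ⟨g, u, hu⟩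
  · have hui := Pool.Agent.Q32.DP.KSF.inj_of (σ.comp f) hinj g Coprod.inl u hu
    obtain ⟨k, g', u', hu'⟩ := Pool.Agent.Q32.DP.KSF.locI n K A hA u hui
    refine ⟨ι k, τ (g * Coprod.inl g'), fun x => ?_⟩
    have h1 : f x = τ (σ (f x)) := (hτσ _).symm
    have h2 : σ (f x) = g * Coprod.inl (u x) * g⁻¹ := hu x
    have h3 : (τ (g * Coprod.inl g'))⁻¹ * f x * τ (g * Coprod.inl g') =
        τ (Coprod.inl (CoprodI.of (u' x))) := by
      rw [h1, h2, ← map_inv, ← map_mul, ← map_mul]
      congr 1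
      rw [hu' x, map_mul, map_mul, map_inv]
      group
    rw [h3, hτ1]
    exact (u' x).2
  · exfalso
    obtain ⟨c, hc⟩ := hinl (f x₀) hz
    have h2 : σ (f x₀) = g * Coprod.inr (u x₀) * g⁻¹ := hu x₀
    have h3 : Coprod.fst (Coprod.inl c : Coprod (CoprodI K) (CoprodI E)) = 1 := by
      rw [← hc, h2, map_mul, map_mul, map_inv, Coprod.fst_apply_inr, mul_one, mul_inv_cancel]
    rw [Coprod.fst_apply_inl] at h3
    rw [h3, map_one] at hc
    apply hx₀
    apply hf
    apply hσi
    rw [hc, map_one, map_one]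

theorem good_not_cyc {A B : Type} [Group A] [Group B] (hA : Pool.Agent.Q32.DP.KSF.Good A)
    (hB : IsCyclic B) (f : A →* B) (hf : Function.Injective f) : False := by
  have hcA : IsCyclic A := isCyclic_of_injective f hf
  obtain ⟨t, ht⟩ := IsCyclic.exists_generator (α := A)
  exact hA.2.2 ⟨t, fun g => (Subgroup.mem_zpowers_iff).1 (ht g)⟩

theorem free_cyc_inf {G : Type} [Group G] (B : Subgroup G) (hc : IsCyclic B) (hB : ¬ Finite B) :
    IsFreeGroup B := by
  have : IsCyclic B := hc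
  have : Infinite B := not_finite_iff_infinite.1 hB
  obtain ⟨x, hx⟩ := IsCyclic.exists_generator (α := B)
  have h1 : Function.Bijective (zpowersHom B x) := by
    constructor
    · intro a b hab
      have h2 : ¬ IsOfFinOrder x := by
        intro h3
        apply hB
        have h4 : Finite (Subgroup.zpowers x) := (finite_zpowers.2 h3).to_subtype
        have h5 : Subgroup.zpowers x = ⊤ := by
          rw [eq_top_iff]
          exact fun y _ => hx y
        rw [h5] at h4
        exact Finite.of_equiv _ Subgroup.topEquiv.toEquiv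
      exact (injective_zpow_iff_not_isOfFinOrder.2 h2) hab
    · intro y
      obtain ⟨k, hk⟩ := Subgroup.mem_zpowers_iff.1 (hx y)
      exact ⟨Multiplicative.ofAdd k, hk⟩
  have h3 : Function.Bijective (FreeGroup.lift (fun _ : Unit => x)) := by
    have h4 : ∀ w : FreeGroup Unit, ∃ k : ℤ, w = FreeGroup.of () ^ k := by
      intro w
      induction w using FreeGroup.induction_on with
      | C1 => exact ⟨0, by simp⟩
      | of x => exact ⟨1, by simp⟩
      | inv_of x _ => exact ⟨-1, by simp⟩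
      | mul x y hx hy =>
        obtain ⟨a, ha⟩ := hx
        obtain ⟨b, hb⟩ := hy
        exact ⟨a + b, by rw [zpow_add, ha, hb]⟩
    constructor
    · rw [injective_iff_map_eq_one]
      intro w hw
      obtain ⟨k, rfl⟩ := h4 w
      rw [map_zpow, FreeGroup.lift_apply_of] at hw
      have h5 : zpowersHom B x (Multiplicative.ofAdd k) = zpowersHom B x 1 := by
        rw [map_one]
        exact hw
      have h6 : Multiplicative.ofAdd k = 1 := h1.1 h5
      have h7 : k = 0 := h6
      rw [h7, zpow_zero]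
    · intro y
      obtain ⟨k, hk⟩ := Subgroup.mem_zpowers_iff.1 (hx y)
      refine ⟨FreeGroup.of () ^ k, ?_⟩
      rw [map_zpow, FreeGroup.lift_apply_of]
      exact hk
  exact IsFreeGroup.ofMulEquiv (MulEquiv.ofBijective _ h3)

/-- **kernels which are free products of infinite cyclic and indecomposable groups** -/
theorem kfree0 (hC : ClosedE C) (hF : Pool.Agent.R684.FP.FbC C) (hMn : M.Normal)
    (hM : GProd (⊥ : SimpleGraph I) B M)
    (hB : ∀ i, (IsCyclic (B i) ∧ ¬ Finite (B i)) ∨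
      (Pool.Agent.Q32.DP.KSF.Good (B i) ∧ Run7.h79.FJ.Good C (B i))) (hQ : C (G ⧸ M)) : C G := by
  classical
  obtain ⟨p, hp⟩ := hM.retr
  have hfp : Pool.Agent.R684.FP.IsFreeProd M B := by
    refine ⟨le_antisymm (iSup_le hM.le) (hM.gen _ fun i => le_iSup B i), ?_⟩
    obtain ⟨φ, hφ⟩ := hM.univ (Monoid.CoprodI fun i => B i)
      (fun i => Monoid.CoprodI.of (M := fun i => B i) (i := i)) (fun v w h => h.elim)
    let ψ : Monoid.CoprodI (fun i => B i) →* M :=
      Monoid.CoprodI.lift (M := fun i => B i) fun i => Subgroup.inclusion (hM.le i)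
    have hψ : ∀ (i : I) (x : B i), ψ (CoprodI.of (M := fun i => B i) x) = ⟨x, hM.le i x.2⟩ :=
      fun i x => CoprodI.lift_of _ _
    have h1 : φ.comp ψ = MonoidHom.id _ := by
      apply CoprodI.ext_hom
      intro i
      ext1 x
      show φ (ψ (CoprodI.of (M := fun i => B i) x)) = CoprodI.of (M := fun i => B i) x
      rw [hψ]
      exact hφ i x
    have h2 : (Monoid.CoprodI.lift (M := fun i => B i) fun i => (B i).subtype) =
        M.subtype.comp ψ := by
      apply CoprodI.ext_hom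
      intro i
      ext1 x
      show Monoid.CoprodI.lift (M := fun i => B i) (fun i => (B i).subtype)
        (CoprodI.of (M := fun i => B i) x) = M.subtype (ψ (CoprodI.of (M := fun i => B i) x))
      rw [hψ, CoprodI.lift_of]
      rfl
    rw [h2]
    have h3 : Function.Injective ψ := by
      intro x y hxy
      have h4 := DFunLike.congr_fun h1 x
      have h5 := DFunLike.congr_fun h1 y
      have h6 : φ (ψ x) = x := h4
      have h7 : φ (ψ y) = y := h5
      rw [← h6, ← h7, hxy]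
    exact M.subtype_injective.comp h3
  obtain ⟨S, hS⟩ : ∃ S : Set I, ∀ i, i ∈ S ↔ Pool.Agent.Q32.DP.KSF.Good (B i) :=
    ⟨{i | Pool.Agent.Q32.DP.KSF.Good (B i)}, fun i => Iff.rfl⟩
  -- conjugates of good factors
  have hconj : ∀ (i : I), Pool.Agent.Q32.DP.KSF.Good (B i) → ∀ g : G, ∃ (j : I) (c : M),
      ∀ x ∈ B i, (c : G)⁻¹ * (g * x * g⁻¹) * c ∈ B j := by
    intro i hi g
    let f : B i →* M := MonoidHom.mk' (fun x => ⟨g * x * g⁻¹, hMn.conj_mem _ (hM.le i x.2) g⟩) (by
      intro x y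
      apply Subtype.ext
      show g * (x * y) * g⁻¹ = g * x * g⁻¹ * (g * y * g⁻¹)
      group)
    have hf : Function.Injective f := by
      rw [injective_iff_map_eq_one]
      intro x hx
      have h1 : g * (x : G) * g⁻¹ = 1 := congrArg Subtype.val hx
      apply Subtype.ext
      show (x : G) = 1
      have h2 : (x : G) = g⁻¹ * (g * (x : G) * g⁻¹) * g := by group
      rw [h2, h1]
      group
    obtain ⟨j, c, hc⟩ := loc_inf hM hi f hf
    exact ⟨j, c, fun x hx => hc ⟨x, hx⟩⟩
  have hgoodj : ∀ (i j : I) (w : G), Pool.Agent.Q32.DP.KSF.Good (B i) →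
      (∀ x ∈ B i, w⁻¹ * x * w ∈ B j) → Pool.Agent.Q32.DP.KSF.Good (B j) := by
    intro i j w hi hw
    rcases hB j with ⟨hj, -⟩ | ⟨hj, -⟩
    · exfalso
      let f : B i →* B j := MonoidHom.mk' (fun x => ⟨w⁻¹ * x * w, hw x x.2⟩) (by
        intro x y
        apply Subtype.ext
        show w⁻¹ * (x * y) * w = w⁻¹ * x * w * (w⁻¹ * y * w)
        group)
      refine good_not_cyc hi hj f ?_
      rw [injective_iff_map_eq_one]
      intro x hx
      have h1 : w⁻¹ * (x : G) * w = 1 := congrArg Subtype.val hx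
      apply Subtype.ext
      show (x : G) = 1
      have h2 : (x : G) = w * (w⁻¹ * (x : G) * w) * w⁻¹ := by group
      rw [h2, h1]
      group
    · exact hj
  refine Pool.Agent.R684.FP.main_all hC hF hQ B S hfp ?_ ?_ ?_
  · intro i hi
    rcases hB i with ⟨h1, h2⟩ | ⟨h1, -⟩
    · exact free_cyc_inf _ h1 h2
    · exact (hi ((hS i).2 h1)).elim
  · intro i hi g
    rw [hS] at hi
    obtain ⟨j, c, hc⟩ := hconj i hi g
    have hj : Pool.Agent.Q32.DP.KSF.Good (B j) := by
      refine hgoodj i j (g⁻¹ * c) hi fun x hx => ?_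
      have h1 : (g⁻¹ * (c : G))⁻¹ * x * (g⁻¹ * c) = (c : G)⁻¹ * (g * x * g⁻¹) * c := by group
      rw [h1]
      exact hc x hx
    obtain ⟨l, d, hd⟩ := hconj j hj g⁻¹
    obtain ⟨w, hw⟩ : ∃ w : M, (w : G) = g⁻¹ * c * g * d := by
      refine ⟨⟨g⁻¹ * c * g⁻¹⁻¹, hMn.conj_mem _ c.2 _⟩ * d, ?_⟩
      show g⁻¹ * c * g⁻¹⁻¹ * d = g⁻¹ * c * g * d
      rw [inv_inv]
    have hwl : ∀ x ∈ B i, (w : G)⁻¹ * x * w ∈ B l := by
      intro x hx
      have h1 := hd _ (hc x hx)
      have h2 : (d : G)⁻¹ * (g⁻¹ * ((c : G)⁻¹ * (g * x * g⁻¹) * c) * g⁻¹⁻¹) * d =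
          (w : G)⁻¹ * x * w := by
        rw [hw]
        group
      rw [h2] at h1
      exact h1
    have hpi : ∀ x : B i, p i (w⁻¹ * ⟨x, hM.le i x.2⟩ * w) = (p i w)⁻¹ * x * p i w := by
      intro x
      rw [map_mul, map_mul, map_inv, hp.same]
    have hil : i = l := by
      by_contra hil
      obtain ⟨x, hx⟩ := hi.ne
      apply hx
      have h1 : p i (w⁻¹ * ⟨x, hM.le i x.2⟩ * w) = 1 :=
        hp.other i l ⟨_, hwl x x.2⟩ hil
      rw [hpi] at h1
      have h2 : x = p i w * ((p i w)⁻¹ * x * p i w) * (p i w)⁻¹ := by group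
      rw [h2, h1]
      group
    subst hil
    have hsurj : ∀ z ∈ B i, ∃ x ∈ B i, z = (w : G)⁻¹ * x * w := by
      intro z hz
      obtain ⟨x, hx⟩ : ∃ x : B i, x = p i w * ⟨z, hz⟩ * (p i w)⁻¹ := ⟨_, rfl⟩
      refine ⟨x, x.2, ?_⟩
      have h1 : p i (w⁻¹ * ⟨x, hM.le i x.2⟩ * w) = ⟨_, hwl x x.2⟩ :=
        hp.same i ⟨_, hwl x x.2⟩
      rw [hpi, hx] at h1
      have h2 : (p i w)⁻¹ * (p i w * ⟨z, hz⟩ * (p i w)⁻¹) * p i w = ⟨z, hz⟩ := by group
      rw [h2] at h1
      rw [hx]
      exact congrArg Subtype.val h1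
    refine ⟨j, (hS j).2 hj, (c : G)⁻¹, M.inv_mem c.2, fun x => ?_⟩
    rw [inv_inv]
    refine ⟨hc x, fun hx => ?_⟩
    have h1 := hd _ hx
    have h2 : (d : G)⁻¹ * (g⁻¹ * ((c : G)⁻¹ * (g * x * g⁻¹) * c) * g⁻¹⁻¹) * d =
        (w : G)⁻¹ * x * w := by
      rw [hw]
      group
    rw [h2] at h1
    obtain ⟨x', hx', h3⟩ := hsurj _ h1
    have h4 : x = x' := by
      have h5 := mul_right_cancel h3
      exact mul_left_cancel h5
    rw [h4]
    exact hx'
  · intro i hi g hg
    rw [hS] at hi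
    have hgood : Run7.h79.FJ.Good C (B i) := by
      rcases hB i with ⟨h1, -⟩ | ⟨-, h1⟩
      · exact (good_not_cyc hi h1 (MonoidHom.id _) Function.injective_id).elim
      · exact h1
    obtain ⟨K, hK⟩ : ∃ K, K = B i ⊔ Subgroup.zpowers g := ⟨_, rfl⟩
    rw [← hK]
    have hBK : B i ≤ K := by rw [hK]; exact le_sup_left
    have hgK : g ∈ K := by rw [hK]; exact Subgroup.mem_sup_right (Subgroup.mem_zpowers g)
    have hn : K ≤ Subgroup.normalizer (B i : Set G) := by
      rw [hK, sup_le_iff]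
      refine ⟨Subgroup.le_normalizer, ?_⟩
      rw [Subgroup.zpowers_le, Subgroup.mem_normalizer_iff]
      exact hg
    have hN1 : ((B i).subgroupOf K).Normal := by
      constructor
      intro y hy z
      exact (Subgroup.mem_normalizer_iff.1 (hn z.2) y).1 hy
    refine hgood K ((B i).subgroupOf K) ⟨Subgroup.subgroupOfEquivOfLe hBK⟩ ?_
    -- the quotient is cyclic
    have h5 : Subgroup.zpowers (QuotientGroup.mk' ((B i).subgroupOf K) ⟨g, hgK⟩) = ⊤ := by
      have h6 : K ≤ ((Subgroup.zpowers (QuotientGroup.mk' ((B i).subgroupOf K) ⟨g, hgK⟩)).comap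
          (QuotientGroup.mk' ((B i).subgroupOf K))).map K.subtype := by
        conv_lhs => rw [hK]
        rw [sup_le_iff]
        constructor
        · intro b hb
          have h7 : QuotientGroup.mk' ((B i).subgroupOf K) ⟨b, hBK hb⟩ = 1 :=
            (QuotientGroup.eq_one_iff _).2 hb
          have h8 : QuotientGroup.mk' ((B i).subgroupOf K) ⟨b, hBK hb⟩ ∈
              Subgroup.zpowers (QuotientGroup.mk' ((B i).subgroupOf K) ⟨g, hgK⟩) := by
            rw [h7]
            exact Subgroup.one_mem _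
          exact ⟨⟨b, hBK hb⟩, h8, rfl⟩
        · rw [Subgroup.zpowers_le]
          exact ⟨⟨g, hgK⟩, Subgroup.mem_zpowers _, rfl⟩
      rw [eq_top_iff]
      rintro y -
      induction y using QuotientGroup.induction_on with
      | H z =>
        obtain ⟨z', hz', hzz⟩ := h6 z.2
        have h7 : z' = z := Subtype.ext hzz
        rw [← h7]
        exact hz'
    have h8 := C_cyc hC.base (QuotientGroup.mk' ((B i).subgroupOf K) ⟨g, hgK⟩)
    rw [h5] at h8
    exact C_equiv hC.base Subgroup.topEquiv.symm h8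

end loc

theorem kfree (hC : ClosedE C) (hF : Pool.Agent.R684.FP.FbC C) {G J : Type} [Group G]
    {B : J → Subgroup G} {Q N : Subgroup G} {L : J → Subgroup G}
    (h : Rel (⊥ : SimpleGraph J) B Q L N)
    (hB : ∀ j, (IsCyclic (B j) ∧ ¬ Finite (B j)) ∨
      (Pool.Agent.Q32.DP.KSF.Good (B j) ∧ Run7.h79.FJ.Good C (B j)))
    (hn : (nc N B).Normal) (hQ : C (G ⧸ nc N B)) : C G := by
  have hk := h.kernel
  have hbot : relG (⊥ : SimpleGraph J) Q L = ⊥ := by
    ext i j
    constructor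
    · rintro ⟨h1, -⟩
      exact h1.elim
    · intro h1
      exact h1.elim
  rw [hbot] at hk
  refine kfree0 hC hF hn hk (fun i => ?_) hQ
  obtain ⟨e⟩ : Nonempty (B i.1 ≃* relA B Q L i) :=
    map_equiv (MulAut.conj (i.2.out : G)).toMonoidHom (B i.1) (fun x _ hx => by
      have h1 : (MulAut.conj (i.2.out : G)) x = 1 := hx
      exact (MulAut.conj (i.2.out : G)).injective (h1.trans (map_one _).symm))
  rcases hB i.1 with ⟨h1, h2⟩ | ⟨h1, h2⟩
  · left
    refine ⟨isCyclic_of_surjective e e.surjective, fun h3 => h2 ?_⟩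
    exact Finite.of_equiv _ e.symm.toEquiv
  · right
    refine ⟨⟨?_, ?_, ?_⟩, h2.equiv e⟩
    · intro g hg n hn hgn
      refine h1.1 (e.symm g) (fun h3 => hg ?_) n hn ?_
      · rw [← e.apply_symm_apply g, h3, map_one]
      · rw [← map_pow, hgn, map_one]
    · rintro ⟨X, Y, iX, iY, hX, hY, ⟨f⟩⟩
      exact h1.2.1 ⟨X, Y, iX, iY, hX, hY, ⟨e.trans f⟩⟩
    · rintro ⟨t, ht⟩
      refine h1.2.2 ⟨e.symm t, fun g => ?_⟩
      obtain ⟨n, hn⟩ := ht (e g)
      refine ⟨n, ?_⟩
      rw [← map_zpow, hn, e.symm_apply_apply]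

end Run7.h79.FY
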