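import Pool.Agent.Run7.h79.FY.Comb3
import Pool.Agent.Run7.h79.FY.Kur

/-!
# Cliques of cyclic twins
-/

set_option autoImplicit false

namespace Run7.h79.FY

open Run7.h79.FJ Q30.FJ Module Monoid

section rel

variable {G : Type} [Group G] {N : Subgroup G} {V : Type} {Λ : SimpleGraph V} {A : V → Subgroup G}

/-- splitting off a set of vertices with the same neighbours outside -/
theorem relU (h : GProd Λ A N) (U D : Set V) (hDU : D ⊆ Uᶜ)
    (hU : ∀ u ∈ U, ∀ w, w ∉ U → (Λ.Adj u w ↔ w ∈ D)) (hne : U.Nonempty) :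
    Rel (⊥ : SimpleGraph Unit) (fun _ : Unit => par A U) (par A Uᶜ) (fun _ : Unit => par A D) N := by
  classical
  refine ⟨fun _ => GProd.par_le h _, GProd.par_le h _, fun _ => par_mono hDU, ?_, ?_, ?_, ?_⟩
  · intro M hM hQM
    apply h.gen
    intro w
    by_cases hw : w ∈ U
    · exact (le_par hw).trans (hM ())
    · exact (le_par hw).trans hQM
  · exact fun u w huw => huw.elim
  · intro _ a ha b hb
    refine par_comm (fun u hu c hc => ?_) ha
    refine (par_comm (fun w hw d hd => ?_) hb).symm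
    exact (h.comm u w ((hU u hu w (hDU hw)).2 hw) c hc d hd).symm
  · intro H _ f k _ hfk
    obtain ⟨u₀, hu₀⟩ := hne
    let f' : ∀ w, A w →* H := fun w =>
      if hw : w ∈ U then (f ()).comp (Subgroup.inclusion (le_par hw))
      else k.comp (Subgroup.inclusion (le_par hw))
    have hf1 : ∀ (w : V) (hw : w ∈ U) (a : A w), f' w a = f () ⟨a, le_par hw a.2⟩ := by
      intro w hw a
      have : f' w = (f ()).comp (Subgroup.inclusion (le_par hw)) := dif_pos hw
      rw [this]
      rfl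
    have hf2 : ∀ (w : V) (hw : w ∈ Uᶜ) (a : A w), f' w a = k ⟨a, le_par hw a.2⟩ := by
      intro w hw a
      have : f' w = k.comp (Subgroup.inclusion (le_par hw)) := dif_neg hw
      rw [this]
      rfl
    obtain ⟨φ, hφ⟩ := h.univ H f' (by
      intro u w huw a b
      by_cases hu : u ∈ U
      · by_cases hw : w ∈ U
        · rw [hf1 u hu a, hf1 w hw b, ← map_mul, ← map_mul]
          congr 1
          exact Subtype.ext (h.comm u w huw a a.2 b b.2)
        · rw [hf1 u hu a, hf2 w hw b]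
          exact hfk () ⟨a, le_par hu a.2⟩ ⟨b, le_par ((hU u hu w hw).1 huw) b.2⟩
      · by_cases hw : w ∈ U
        · rw [hf2 u hu a, hf1 w hw b]
          exact (hfk () ⟨b, le_par hw b.2⟩ ⟨a, le_par ((hU w hw u hu).1 huw.symm) a.2⟩).symm
        · rw [hf2 u hu a, hf2 w hw b, ← map_mul, ← map_mul]
          congr 1
          exact Subtype.ext (h.comm u w huw a a.2 b b.2))
    refine ⟨φ, fun _ => ?_, ?_⟩
    · have h1 : par A U ≤ ((φ.comp (Subgroup.inclusion (GProd.par_le h _))).eqLocus (f ())).map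
          (Subgroup.subtype (par A U)) := by
        apply par_le
        intro w hw a ha
        refine ⟨⟨a, le_par hw ha⟩, ?_, rfl⟩
        show φ ⟨a, _⟩ = f () ⟨a, _⟩
        exact (hφ w ⟨a, ha⟩).trans (hf1 w hw ⟨a, ha⟩)
      intro x
      obtain ⟨y, hy, hyx⟩ := h1 x.2
      have h2 : y = x := Subtype.ext hyx
      rw [← h2]
      exact hy
    · have h1 : par A Uᶜ ≤ ((φ.comp (Subgroup.inclusion (GProd.par_le h _))).eqLocus k).map
          (Subgroup.subtype (par A Uᶜ)) := by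
        apply par_le
        intro w hw a ha
        refine ⟨⟨a, le_par hw ha⟩, ?_, rfl⟩
        show φ ⟨a, _⟩ = k ⟨a, _⟩
        exact (hφ w ⟨a, ha⟩).trans (hf2 w hw ⟨a, ha⟩)
      intro x
      obtain ⟨y, hy, hyx⟩ := h1 x.2
      have h2 : y = x := Subtype.ext hyx
      rw [← h2]
      exact hy

end rel

open Pool.Agent.Y43.CH in
/-- free products are not commutative -/
theorem coprod_noncomm {X Y : Type} [Group X] [Group Y] {x : X} {y : Y} (hx : x ≠ 1) (hy : y ≠ 1)
    (h : (Coprod.inl x : Coprod X Y) * Coprod.inr y = Coprod.inr y * Coprod.inl x) : False := by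
  let φ : ∀ b, Unit →* Fam X Y b := fun _ => 1
  have hφ : ∀ b, Function.Injective (φ b) := fun b => Function.injective_of_subsingleton _
  have hr : ∀ (b : Bool) (z : Fam X Y b), z ≠ 1 → z ∉ (φ b).range := by
    rintro b z hz ⟨e, he⟩
    exact hz he.symm
  obtain ⟨F, hF1, hF2⟩ : ∃ F : Coprod X Y →* PushoutI φ,
      (∀ x, F (Coprod.inl x) = PushoutI.of (φ := φ) true x) ∧
      ∀ y, F (Coprod.inr y) = PushoutI.of (φ := φ) false y :=
    ⟨Coprod.lift (PushoutI.of (φ := φ) true) (PushoutI.of (φ := φ) false),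
      fun x => Coprod.lift_apply_inl _ _ x, fun y => Coprod.lift_apply_inr _ _ y⟩
  have h1 : Red φ [⟨true, x⟩, ⟨false, y⟩, ⟨true, x⁻¹⟩, ⟨false, y⁻¹⟩] := by
    have hx' : x⁻¹ ≠ 1 := fun h => hx (inv_eq_one.1 h)
    have hy' : y⁻¹ ≠ 1 := fun h => hy (inv_eq_one.1 h)
    refine Red.cons (i := true) (hr true x hx) (Red.cons (i := false) (hr false y hy)
      (Red.cons (i := true) (hr true _ hx') (Red.single (i := false) (hr false _ hy')) ?_) ?_) ?_
    all_goals
      intro z hz
      simp only [List.head?_cons, Option.mem_def, Option.some.injEq] at hz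
      subst hz
      simp
  have h2 := h1.ne_one hφ (by simp)
  apply h2
  rw [pr_cons, pr_cons, pr_cons, pr_cons, pr_nil, mul_one]
  have h3 : (Coprod.inl x : Coprod X Y) * (Coprod.inr y * (Coprod.inl x⁻¹ * Coprod.inr y⁻¹)) = 1 := by
    rw [map_inv, map_inv, ← mul_assoc, ← mul_assoc, h]
    group
  have h4 := congrArg F h3
  rw [map_mul, map_mul, map_mul, hF1, hF2, hF1, hF2, map_one] at h4
  exact h4

/-- abelian groups do not split -/
theorem not_splits_comm {P : Type} [Group P] (hP : ∀ a b : P, a * b = b * a) :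
    ¬ Pool.Agent.H599R3.RH.Splits P := by
  rintro ⟨X, Y, iX, iY, hX, hY, ⟨e⟩⟩
  obtain ⟨x, hx⟩ := exists_ne (1 : X)
  obtain ⟨y, hy⟩ := exists_ne (1 : Y)
  refine coprod_noncomm hx hy ?_
  apply e.symm.injective
  rw [map_mul, map_mul, hP]

section clique

variable {G : Type} [Group G] {N : Subgroup G} {V : Type} {Λ : SimpleGraph V} {A : V → Subgroup G}

/-- products of commuting subgroups -/
theorem pi_hom {U : Type} [Fintype U] [DecidableEq U] (B : U → Subgroup G) (hle : ∀ u, B u ≤ N)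
    (hc : ∀ u w, u ≠ w → ∀ x ∈ B u, ∀ y ∈ B w, x * y = y * x) :
    ∃ θ : (∀ u, B u) →* N, ∀ u (a : B u), θ (Pi.mulSingle u a) = ⟨a, hle u a.2⟩ := by
  obtain ⟨ϕ, hϕ⟩ : ∃ ϕ : ∀ u, B u →* N, ∀ u a, ϕ u a = ⟨a, hle u a.2⟩ :=
    ⟨fun u => Subgroup.inclusion (hle u), fun u a => rfl⟩
  have h1 : Pairwise fun u w => ∀ (x : B u) (y : B w), Commute (ϕ u x) (ϕ w y) := by
    intro u w huw x y
    rw [hϕ, hϕ]
    exact Subtype.ext (hc u w huw x x.2 y y.2)
  refine ⟨MonoidHom.noncommPiCoprod ϕ h1, fun u a => ?_⟩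
  rw [MonoidHom.noncommPiCoprod_mulSingle, hϕ]

/-- cliques of infinite cyclic groups -/
theorem clique_good [Finite V] (h : GProd Λ A N) (U : Set V)
    (hU : ∀ u ∈ U, ∀ w ∈ U, u ≠ w → Λ.Adj u w)
    (htf : ∀ v, ∀ a ∈ A v, a ≠ 1 → ∀ n : ℕ, n ≠ 0 → a ^ n ≠ 1)
    (hab : ∀ v ∈ U, ∀ a ∈ A v, ∀ b ∈ A v, a * b = b * a)
    {s t : V} (hs : s ∈ U) (ht : t ∈ U) (hst : s ≠ t) (hs1 : ∃ a ∈ A s, a ≠ 1)
    (ht1 : ∃ a ∈ A t, a ≠ 1) : Pool.Agent.Q32.DP.KSF.Good (par A U) := by
  classical
  obtain ⟨p, hp⟩ := h.retr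
  have hcomm : ∀ x ∈ par A U, ∀ y ∈ par A U, x * y = y * x := by
    intro x hx y hy
    refine par_comm (fun u hu c hc => ?_) hx
    refine (par_comm (fun w hw d hd => ?_) hy).symm
    by_cases huw : u = w
    · subst huw
      exact hab _ hw d hd c hc
    · exact (h.comm u w (hU u hu w hw huw) c hc d hd).symm
  -- elements with trivial projections are trivial
  have hproj : ∀ x : N, (x : G) ∈ par A U → (∀ u ∈ U, p u x = 1) → x = 1 := by
    have : Fintype U := Fintype.ofFinite U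
    obtain ⟨θ, hθ⟩ := pi_hom (fun u : U => A u) (fun u => h.le u) (fun u w huw x hx y hy =>
      h.comm u w (hU u u.2 w w.2 (fun h => huw (Subtype.ext h))) x hx y hy)
    have hpθ : ∀ (u : U) (a : ∀ u : U, A u), p u (θ a) = a u := by
      intro u a
      have h1 : (p u).comp θ = Pi.evalMonoidHom (fun u : U => A u) u := by
        apply MonoidHom.pi_ext
        intro w x
        show p u (θ (Pi.mulSingle w x)) = (Pi.mulSingle w x : ∀ u : U, A u) u
        rw [hθ]
        by_cases huw : u = w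
        · subst huw
          rw [hp.same, Pi.mulSingle_eq_same]
        · rw [hp.other u w x (fun h => huw (Subtype.ext h)), Pi.mulSingle_eq_of_ne huw]
      exact DFunLike.congr_fun h1 a
    have hle : par A U ≤ θ.range.map N.subtype := by
      apply par_le
      intro u hu a ha
      have e1 := hθ ⟨u, hu⟩ ⟨a, ha⟩
      exact Subgroup.mem_map.2 ⟨⟨a, h.le u ha⟩, MonoidHom.mem_range.2 ⟨_, e1⟩, rfl⟩
    intro x hx hpx
    obtain ⟨z, ⟨a, rfl⟩, hz⟩ := hle hx
    have h2 : θ a = x := Subtype.ext hz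
    have h3 : a = 1 := by
      funext u
      rw [← hpθ u a, h2, hpx u u.2]
      rfl
    rw [← h2, h3, map_one]
  refine ⟨?_, ?_, ?_⟩
  · intro g hg n hn hgn
    apply hg
    have h1 : (⟨g, GProd.par_le h _ g.2⟩ : N) = 1 := by
      apply hproj _ g.2
      intro u hu
      by_contra h2
      have h3 : p u ⟨g, GProd.par_le h _ g.2⟩ ^ n = 1 := by
        rw [← map_pow]
        have h4 : (⟨g, GProd.par_le h _ g.2⟩ : N) ^ n = 1 :=
          Subtype.ext (congrArg (Subtype.val : par A U → G) hgn)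
        rw [h4, map_one]
      refine htf u (p u ⟨g, GProd.par_le h _ g.2⟩ : A u) (Subtype.property _)
        (fun h5 => h2 (Subtype.ext h5)) n hn ?_
      exact congrArg Subtype.val h3
    have h2 : (g : G) = 1 := congrArg Subtype.val h1
    exact Subtype.ext h2
  · exact not_splits_comm fun a b => Subtype.ext (hcomm a a.2 b b.2)
  · rintro ⟨g, hg⟩
    obtain ⟨a, ha, ha1⟩ := hs1
    obtain ⟨b, hb, hb1⟩ := ht1
    obtain ⟨m, hm⟩ := hg ⟨a, le_par hs ha⟩
    obtain ⟨n, hn⟩ := hg ⟨b, le_par ht hb⟩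
    have hm' : (g : G) ^ m = a := congrArg Subtype.val hm
    have hn' : (g : G) ^ n = b := congrArg Subtype.val hn
    have h1 : a ^ n = b ^ m := by
      rw [← hm', ← hn', ← zpow_mul, ← zpow_mul, mul_comm]
    have hn0 : n ≠ 0 := by
      rintro rfl
      rw [zpow_zero] at hn'
      exact hb1 hn'.symm
    have h2 : p s (⟨a, h.le s ha⟩ ^ n) = p s (⟨b, h.le t hb⟩ ^ m) := congrArg _ (Subtype.ext h1)
    rw [map_zpow, map_zpow, hp.same s ⟨a, ha⟩, hp.other s t ⟨b, hb⟩ hst, one_zpow] at h2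
    have h3 : a ^ n = 1 := congrArg Subtype.val h2
    have h4 : a ^ n.natAbs = 1 := by
      rcases Int.natAbs_eq n with h5 | h5
      · rw [h5, zpow_natCast] at h3
        exact h3
      · rw [h5, zpow_neg, zpow_natCast, inv_eq_one] at h3
        exact h3
    exact htf s a ha ha1 n.natAbs (Int.natAbs_ne_zero.2 hn0) h4

end clique

end Run7.h79.FY
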