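import Pool.Agent.Run7.h79.FY.RCent

/-!
# Homomorphisms of graph products to the rational numbers
-/

set_option autoImplicit false

namespace Run7.h79.FY

open Run7.h79.FJ Q30.FJ Module

variable {G : Type} [Group G]

/-- the homomorphisms to the rational numbers -/
def XN (N : Subgroup G) : Submodule ℚ (N → ℚ) where
  carrier := {f | ∀ x y, f (x * y) = f x + f y}
  add_mem' := by
    intro f f' hf hf' x y
    show f (x * y) + f' (x * y) = f x + f' x + (f y + f' y)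
    rw [hf, hf']
    ring
  zero_mem' := by
    intro x y
    show (0 : ℚ) = 0 + 0
    rw [add_zero]
  smul_mem' := by
    intro c f hf x y
    show c * f (x * y) = c * f x + c * f y
    rw [hf, mul_add]

variable {N : Subgroup G}

/-- the homomorphism of a function -/
def hm {f : N → ℚ} (hf : f ∈ XN N) : N →* QQ :=
  MonoidHom.mk' (fun x => Multiplicative.ofAdd (f x)) (fun x y => by
    show Multiplicative.ofAdd (f (x * y)) = Multiplicative.ofAdd (f x + f y)
    rw [hf])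

theorem hm_one {f : N → ℚ} (hf : f ∈ XN N) (x : N) : hm hf x = 1 ↔ f x = 0 := Iff.rfl

/-- the function of a homomorphism -/
def fn (f : N →* QQ) : N → ℚ := fun x => Multiplicative.toAdd (f x)

theorem fn_mem (f : N →* QQ) : fn f ∈ XN N := fun x y => by
  show Multiplicative.toAdd (f (x * y)) = _
  rw [map_mul]
  rfl

theorem fn_zero (f : N →* QQ) (x : N) : fn f x = 0 ↔ f x = 1 := Iff.rfl

variable {V : Type} {Λ : SimpleGraph V} {A : V → Subgroup G}

variable (A N) in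
/-- the homomorphisms which vanish on the vertex groups of `S` -/
def KK (S : Set V) : Submodule ℚ (N → ℚ) where
  carrier := {f | f ∈ XN N ∧ ∀ v ∈ S, ∀ a : N, (a : G) ∈ A v → f a = 0}
  add_mem' := by
    rintro f f' ⟨hf, hf1⟩ ⟨hf', hf1'⟩
    refine ⟨(XN N).add_mem hf hf', fun v hv a ha => ?_⟩
    show f a + f' a = 0
    rw [hf1 v hv a ha, hf1' v hv a ha, add_zero]
  zero_mem' := ⟨(XN N).zero_mem, fun _ _ _ _ => rfl⟩
  smul_mem' := by
    rintro c f ⟨hf, hf1⟩
    refine ⟨(XN N).smul_mem c hf, fun v hv a ha => ?_⟩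
    show c * f a = 0
    rw [hf1 v hv a ha, mul_zero]

/-- the homomorphisms which vanish on the centralizer -/
def An (g : N) : Submodule ℚ (N → ℚ) where
  carrier := {f | f ∈ XN N ∧ ∀ k : N, g * k = k * g → f k = 0}
  add_mem' := by
    rintro f f' ⟨hf, hf1⟩ ⟨hf', hf1'⟩
    refine ⟨(XN N).add_mem hf hf', fun a ha => ?_⟩
    show f a + f' a = 0
    rw [hf1 a ha, hf1' a ha, add_zero]
  zero_mem' := ⟨(XN N).zero_mem, fun _ _ => rfl⟩
  smul_mem' := by
    rintro c f ⟨hf, hf1⟩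
    refine ⟨(XN N).smul_mem c hf, fun a ha => ?_⟩
    show c * f a = 0
    rw [hf1 a ha, mul_zero]

/-- the homomorphisms which vanish at `g` -/
def Zr (g : N) : Submodule ℚ (N → ℚ) := LinearMap.ker (LinearMap.proj (R := ℚ) (φ := fun _ : N => ℚ) g)

theorem mem_Zr {g : N} {f : N → ℚ} : f ∈ Zr g ↔ f g = 0 := Iff.rfl

theorem KK_le (S : Set V) : KK N A S ≤ XN N := fun _ hf => hf.1

theorem An_le (g : N) : An g ≤ XN N := fun _ hf => hf.1

theorem KK_mono {S T : Set V} (h : S ⊆ T) : KK N A T ≤ KK N A S :=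
  fun _ hf => ⟨hf.1, fun v hv => hf.2 v (h hv)⟩

/-- hyperplanes -/
theorem hyp_dim (W : Submodule ℚ (N → ℚ)) [FiniteDimensional ℚ W] (g : N) :
    finrank ℚ W ≤ finrank ℚ ↥(W ⊓ Zr g) + 1 := by
  obtain ⟨e, he⟩ : ∃ e : W →ₗ[ℚ] ℚ, e = (LinearMap.proj (R := ℚ) (φ := fun _ : N => ℚ) g).comp
    W.subtype := ⟨_, rfl⟩
  have h1 := LinearMap.finrank_range_add_finrank_ker e
  have h2 : finrank ℚ (LinearMap.range e) ≤ 1 := by
    have := Submodule.finrank_le (LinearMap.range e)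
    rwa [finrank_self] at this
  have h3 : (LinearMap.ker e).map W.subtype = W ⊓ Zr g := by
    ext f
    constructor
    · rintro ⟨x, hx, rfl⟩
      subst he
      exact ⟨x.2, hx⟩
    · rintro ⟨hf, hfg⟩
      subst he
      exact ⟨⟨f, hf⟩, hfg, rfl⟩
  have h4 : finrank ℚ (LinearMap.ker e) = finrank ℚ ↥(W ⊓ Zr g) := by
    rw [← h3]
    exact (Submodule.finrank_map_subtype_eq W (LinearMap.ker e)).symm
  omega

theorem hom_par (f : N →* QQ) (hN : ∀ v, A v ≤ N) (S : Set V)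
    (hf : ∀ v ∈ S, ∀ a : N, (a : G) ∈ A v → f a = 1) (x : N) (hx : (x : G) ∈ par A S) : f x = 1 := by
  have h1 : par A S ≤ f.ker.map N.subtype := by
    apply par_le
    intro v hv a ha
    exact ⟨⟨a, hN v ha⟩, hf v hv _ ha, rfl⟩
  obtain ⟨z, hz, hzx⟩ := h1 hx
  have h2 : z = x := Subtype.ext hzx
  rw [← h2]
  exact hz

theorem hom_nc {U : Type} {B : U → Subgroup G} (f : N →* QQ) (hN : ∀ v, B v ≤ N)
    (hf : ∀ v, ∀ a : N, (a : G) ∈ B v → f a = 1) (x : N) (hx : (x : G) ∈ nc N B) : f x = 1 :=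
  nc_hom hN f (fun u a ha => hf u ⟨a, hN u ha⟩ ha) hx x.2

theorem KK_nc {U : Type} {B : U → Subgroup G} {f : N → ℚ} (hf : f ∈ XN N) (hN : ∀ v, B v ≤ N)
    (hfB : ∀ v, ∀ a : N, (a : G) ∈ B v → f a = 0) (x : N) (hx : (x : G) ∈ nc N B) : f x = 0 :=
  hom_nc (hm hf) hN hfB x hx

theorem KK_par {S : Set V} {f : N → ℚ} (hf : f ∈ KK N A S) (hN : ∀ v, A v ≤ N) (x : N)
    (hx : (x : G) ∈ par A S) : f x = 0 :=
  hom_par (hm hf.1) hN S hf.2 x hx

variable (A N) in
/-- the support -/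
def Sp (g : N) : Set V := {s | ∀ c : N, ((c⁻¹ * g * c : N) : G) ∉ par A {s}ᶜ}

/-- elements are conjugate to elements of the subgroup of their support -/
theorem sp_conj [Finite V] (h : GProd Λ A N) (g : N) :
    ∃ c : N, ((c⁻¹ * g * c : N) : G) ∈ par A (Sp N A g) := by
  classical
  obtain ⟨P, hP⟩ : ∃ P : Set V → Prop, ∀ T, P T ↔ ∃ c : N, ((c⁻¹ * g * c : N) : G) ∈ par A T :=
    ⟨_, fun _ => Iff.rfl⟩
  have hu : P Set.univ := by
    rw [hP]
    refine ⟨1, ?_⟩
    rw [← GProd.eq_par_univ h]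
    exact Subtype.property _
  obtain ⟨T, hT, hmin⟩ := (wellFounded_lt (α := Set V)).has_min {T | P T} ⟨_, hu⟩
  have hTS : T ⊆ Sp N A g := by
    intro s hs d hd
    obtain ⟨c, hc⟩ := (hP T).1 hT
    -- the retraction
    obtain ⟨ρ, hρ⟩ := h.univ N (fun v => if v ∈ T then Subgroup.inclusion (h.le v) else 1) (by
      intro v w hvw a b
      by_cases hv : v ∈ T
      · by_cases hw : w ∈ T
        · simp only [if_pos hv, if_pos hw]
          exact Subtype.ext (h.comm v w hvw a a.2 b b.2)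
        · simp only [if_neg hw]
          show _ * (1 : N) = (1 : N) * _
          rw [mul_one, one_mul]
      · simp only [if_neg hv]
        show (1 : N) * _ = _ * (1 : N)
        rw [mul_one, one_mul])
    have hρ1 : ∀ v ∈ T, ∀ a : A v, ρ ⟨a, h.le v a.2⟩ = ⟨a, h.le v a.2⟩ := by
      intro v hv a
      rw [hρ v a, if_pos hv]
      rfl
    have hρ2 : ∀ v, v ∉ T → ∀ a : A v, ρ ⟨a, h.le v a.2⟩ = 1 := by
      intro v hv a
      rw [hρ v a, if_neg hv]
      rfl
    have hfix : ∀ x : N, (x : G) ∈ par A T → ρ x = x := by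
      have h1 : par A T ≤ (ρ.eqLocus (MonoidHom.id N)).map N.subtype := by
        apply par_le
        intro v hv a ha
        exact ⟨⟨a, h.le v ha⟩, hρ1 v hv ⟨a, ha⟩, rfl⟩
      intro x hx
      obtain ⟨z, hz, hzx⟩ := h1 hx
      have h2 : z = x := Subtype.ext hzx
      rw [← h2]
      exact hz
    have hmaps : ∀ x : N, (x : G) ∈ par A {s}ᶜ → ((ρ x : N) : G) ∈ par A (T \ {s}) := by
      have h1 : par A {s}ᶜ ≤ ((par A (T \ {s})).comap (N.subtype.comp ρ)).map N.subtype := by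
        apply par_le
        intro v hv a ha
        refine ⟨⟨a, h.le v ha⟩, ?_, rfl⟩
        show ((ρ ⟨a, h.le v ha⟩ : N) : G) ∈ par A (T \ {s})
        by_cases hvT : v ∈ T
        · rw [hρ1 v hvT ⟨a, ha⟩]
          exact le_par (A := A) (S := T \ {s}) (v := v) ⟨hvT, hv⟩ ha
        · rw [hρ2 v hvT ⟨a, ha⟩]
          exact Subgroup.one_mem _
      intro x hx
      obtain ⟨z, hz, hzx⟩ := h1 hx
      have h2 : z = x := Subtype.ext hzx
      rw [← h2]
      exact hz
    have hlt : T \ {s} < T := by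
      refine ⟨Set.sdiff_subset, fun h1 => ?_⟩
      exact (h1 hs).2 rfl
    refine hmin (T \ {s}) ?_ hlt
    show P (T \ {s})
    rw [hP]
    refine ⟨c * ρ (c⁻¹ * d), ?_⟩
    have e1 : (c * ρ (c⁻¹ * d))⁻¹ * g * (c * ρ (c⁻¹ * d)) =
        (ρ (c⁻¹ * d))⁻¹ * (c⁻¹ * g * c) * ρ (c⁻¹ * d) := by group
    have e2 : c⁻¹ * g * c = ρ (c⁻¹ * g * c) := (hfix _ hc).symm
    have e3 : (c * ρ (c⁻¹ * d))⁻¹ * g * (c * ρ (c⁻¹ * d)) = ρ (d⁻¹ * g * d) := by
      rw [e1, e2, ← map_inv, ← map_mul, ← map_mul]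
      congr 1
      group
    rw [e3]
    exact hmaps _ hd
  obtain ⟨c, hc⟩ := (hP T).1 hT
  exact ⟨c, par_mono hTS hc⟩

/-- **homomorphisms which vanish at an element and at a link of its support vanish on the
centralizer** -/
theorem cent_le (h : GProd Λ A N) {s : V} (hA : Comm1 (A s)) {g : N} (hs : s ∈ Sp N A g) :
    KK N A {w | Λ.Adj s w} ⊓ Zr g ≤ An g := by
  rintro f ⟨hf, hfg⟩
  refine ⟨hf.1, fun k hk => ?_⟩
  exact rel_cent (GProd.relv h s) hA (hm hf.1) (fun l hl => KK_par hf h.le l hl) g k hfg hk hs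

theorem sp_facts [FiniteDimensional ℚ (XN N)] (h : GProd Λ A N) {s : V} (hA : Comm1 (A s)) {g : N}
    (hs : s ∈ Sp N A g) (m : ℕ) (hm : m ≤ finrank ℚ (KK N A {w | Λ.Adj s w}))
    (hg : finrank ℚ (An g) + 1 ≤ m) :
    An g = KK N A {w | Λ.Adj s w} ⊓ Zr g ∧ finrank ℚ (KK N A {w | Λ.Adj s w}) = m := by
  have f1 : FiniteDimensional ℚ (KK N A {w | Λ.Adj s w}) :=
    Submodule.finiteDimensional_of_le (KK_le _)
  have f2 : FiniteDimensional ℚ (An g) := Submodule.finiteDimensional_of_le (An_le g)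
  have h1 := cent_le h hA hs
  have h2 := hyp_dim (KK N A {w | Λ.Adj s w}) g
  have h3 := Submodule.finrank_mono h1
  refine ⟨(Submodule.eq_of_le_of_finrank_le h1 (by omega)).symm, by omega⟩

end Run7.h79.FY
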