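import Pool.Agent.Run7.h79.FY.Comb

/-!
# Characteristic subgroups of graph products
-/

set_option autoImplicit false

namespace Run7.h79.FY

open Run7.h79.FJ Q30.FJ Module

/-- every element is killed by a nontrivial homomorphism to the rational numbers -/
def Wide (B : Type) [Group B] : Prop := ∀ x : B, ∃ χ : B →* QQ, χ ≠ 1 ∧ χ x = 1

/-- there is a nontrivial homomorphism to the rational numbers -/
def Seen (B : Type) [Group B] : Prop := ∃ χ : B →* QQ, χ ≠ 1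

variable {G : Type} [Group G] {N : Subgroup G} {V : Type} {Λ : SimpleGraph V} {A : V → Subgroup G}

/-- homomorphisms of a vertex group -/
theorem ex1 {p : ∀ v, N →* A v} (hp : Retr A N p) (v : V) (χ : A v →* QQ) :
    fn (χ.comp (p v)) ∈ KK N A {v}ᶜ := by
  refine ⟨fn_mem _, fun w hw a ha => ?_⟩
  show χ (p v a) = 1
  have h1 : p v a = 1 := hp.other v w ⟨a, ha⟩ (fun h => hw h.symm)
  rw [h1, map_one]

/-- restriction to a set of vertices -/
theorem restr (h : GProd Λ A N) (S : Set V) {f : N → ℚ} (hf : f ∈ XN N) :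
    ∃ f' ∈ KK N A Sᶜ, ∀ v ∈ S, ∀ a : N, (a : G) ∈ A v → f' a = f a := by
  classical
  obtain ⟨F, hF⟩ := h.univ QQ (fun v => if v ∈ S then (hm hf).comp (Subgroup.inclusion (h.le v))
    else 1) (fun v w _ a b => mul_comm _ _)
  refine ⟨fn F, ⟨fn_mem F, ?_⟩, ?_⟩
  · intro v hv a ha
    show F a = 1
    have h1 := hF v ⟨a, ha⟩
    rw [if_neg hv] at h1
    exact h1
  · intro v hv a ha
    have h1 := hF v ⟨a, ha⟩
    rw [if_pos hv] at h1
    exact h1

theorem zero_of_all (h : GProd Λ A N) {f : N → ℚ} (hf : f ∈ KK N A Set.univ) (x : N) : f x = 0 :=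
  KK_par hf h.le x (by rw [← GProd.eq_par_univ h]; exact x.2)

theorem conj_val {f : N → ℚ} (hf : f ∈ XN N) (c x : N) : f (c⁻¹ * x * c) = f x :=
  qq_conj (hm hf) c x

theorem one_val {f : N → ℚ} (hf : f ∈ XN N) : f 1 = 0 := map_one (hm hf)

/-- visible vertices are in the support -/
theorem sp_of_vis (h : GProd Λ A N) {g : N} {u : V} {f : N → ℚ} (hf : f ∈ KK N A {u}ᶜ)
    (hfg : f g ≠ 0) : u ∈ Sp N A g := by
  intro c hc
  apply hfg
  rw [← conj_val hf.1 c g]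
  exact KK_par hf h.le _ hc

theorem claim1 (h : GProd Λ A N) (hX : ∀ v, Seen (A v)) {g : N} {s s' u : V}
    (e : KK N A {w | Λ.Adj s w} ⊓ Zr g = KK N A {w | Λ.Adj s' w} ⊓ Zr g)
    (hu : Λ.Adj s' u) (hu' : ¬ Λ.Adj s u) :
    ¬ Wide (A u) ∧ (∀ v, ¬ Λ.Adj s v → v ≠ u → ∀ f ∈ KK N A {v}ᶜ, f g = 0) ∧
      ∃ f ∈ KK N A {u}ᶜ, f g ≠ 0 := by
  obtain ⟨p, hp⟩ := h.retr
  have kill : ∀ f ∈ KK N A {w | Λ.Adj s w}, f g = 0 → ∀ a : N, (a : G) ∈ A u → f a = 0 := by
    intro f hf hfg a ha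
    have h1 : f ∈ KK N A {w | Λ.Adj s' w} ⊓ Zr g := by
      rw [← e]
      exact ⟨hf, hfg⟩
    exact h1.1.2 u hu a ha
  have hK : ∀ v, ¬ Λ.Adj s v → KK N A {v}ᶜ ≤ KK N A {w | Λ.Adj s w} := by
    intro v hv
    apply KK_mono
    rintro w hw rfl
    exact hv hw
  have hone : ∀ χ : A u →* QQ, χ (p u g) = 1 → χ = 1 := by
    intro χ hχ
    ext a
    have h1 := kill _ (hK u hu' (ex1 hp u χ)) hχ ⟨a, h.le u a.2⟩ a.2
    have h2 : χ (p u ⟨a, h.le u a.2⟩) = 1 := h1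
    rw [hp.same u a] at h2
    exact h2
  have hc : ∃ f ∈ KK N A {u}ᶜ, f g ≠ 0 := by
    obtain ⟨χ, hχ⟩ := hX u
    refine ⟨_, ex1 hp u χ, fun h1 => hχ (hone χ h1)⟩
  refine ⟨?_, ?_, hc⟩
  · intro hw
    obtain ⟨χ, hχ, h1⟩ := hw (p u g)
    exact hχ (hone χ h1)
  · intro v hv hvu f hf
    by_contra hfg
    obtain ⟨fu, hfu, hfug⟩ := hc
    have h1 : fu g • f - f g • fu ∈ KK N A {w | Λ.Adj s w} :=
      Submodule.sub_mem _ (Submodule.smul_mem _ _ (hK v hv hf))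
        (Submodule.smul_mem _ _ (hK u hu' hfu))
    have h2 : (fu g • f - f g • fu) g = 0 := by
      show fu g * f g - f g * fu g = 0
      ring
    have h3 := kill _ h1 h2
    apply hfug
    apply zero_of_all h
    refine ⟨hfu.1, fun w _ a ha => ?_⟩
    by_cases hw : w = u
    · subst hw
      have h4 : fu g * f a - f g * fu a = 0 := h3 a ha
      have h5 : f a = 0 := hf.2 w (fun h => hvu (Set.mem_singleton_iff.1 h).symm) a ha
      rw [h5, mul_zero, zero_sub, neg_eq_zero, mul_eq_zero] at h4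
      exact h4.resolve_left hfg
    · exact hfu.2 w hw a ha

/-- twins -/
def Tw (Λ : SimpleGraph V) (Cy : V → Prop) (s t : V) : Prop :=
  (∀ v, Λ.Adj s v ↔ Λ.Adj t v) ∨
    (Cy s ∧ Cy t ∧ Λ.Adj s t ∧ ∀ v, v ≠ s → v ≠ t → (Λ.Adj s v ↔ Λ.Adj t v))

theorem Tw.refl (Cy : V → Prop) (s : V) : Tw Λ Cy s s := Or.inl fun _ => Iff.rfl

theorem Tw.symm {Cy : V → Prop} {s t : V} (h : Tw Λ Cy s t) : Tw Λ Cy t s := by
  rcases h with h | ⟨h1, h2, h3, h4⟩
  · exact Or.inl fun v => (h v).symm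
  · exact Or.inr ⟨h2, h1, h3.symm, fun v hv hv' => (h4 v hv' hv).symm⟩

/-- the two kinds of twins do not mix -/
theorem Tw.mix {s t r : V} (h : ∀ v, Λ.Adj s v ↔ Λ.Adj t v) (h3 : Λ.Adj t r)
    (h4 : ∀ v, v ≠ t → v ≠ r → (Λ.Adj t v ↔ Λ.Adj r v)) : s = t := by
  by_contra hst
  have h5 : Λ.Adj s r := (h r).2 h3
  have h6 : Λ.Adj t s := (h4 s hst h5.ne).2 h5.symm
  have h7 : Λ.Adj s s := (h s).2 h6
  exact h7.ne rfl

theorem Tw.trans {Cy : V → Prop} {s t r : V} (h : Tw Λ Cy s t) (h' : Tw Λ Cy t r) :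
    Tw Λ Cy s r := by
  rcases h with h | ⟨h1, h2, h3, h4⟩
  · rcases h' with h' | ⟨h1', h2', h3', h4'⟩
    · exact Or.inl fun v => (h v).trans (h' v)
    · have := Tw.mix h h3' h4'
      subst this
      exact Or.inr ⟨h1', h2', h3', h4'⟩
  · rcases h' with h' | ⟨h1', h2', h3', h4'⟩
    · have := Tw.mix (s := r) (t := t) (r := s) (fun v => (h' v).symm) h3.symm
        (fun v hv hv' => (h4 v hv' hv).symm)
      subst this
      exact Or.inr ⟨h1, h2, h3, h4⟩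
    · by_cases hsr : s = r
      · subst hsr
        exact Tw.refl Cy s
      · have h5 : Λ.Adj s r := (h4 r (fun h => hsr h.symm) h3'.ne.symm).2 h3'
        refine Or.inr ⟨h1, h2', h5, fun v hv hv' => ?_⟩
        by_cases hvt : v = t
        · subst hvt
          exact ⟨fun _ => h3'.symm, fun _ => h3⟩
        · exact (h4 v hv hvt).trans (h4' v hvt hv')

variable (Λ A) in
/-- the class of a vertex -/
abbrev Cl (s : V) : Set V := {u | Tw Λ (fun v => ¬ Wide (A v)) s u}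

variable (Λ A N) in
/-- the normal subgroup of a class -/
def MM (s : V) : Subgroup G := nc N (fun u : Cl Λ A s => A u)

theorem par_le_MM (s : V) : par A (Cl Λ A s) ≤ MM N Λ A s :=
  par_le fun v hv => le_nc (N := N) (A := fun u : Cl Λ A s => A u) ⟨v, hv⟩

section sup

variable [FiniteDimensional ℚ (XN N)] (h : GProd Λ A N) (hX : ∀ v, Seen (A v))
  (hA : ∀ v, Comm1 (A v)) {m : ℕ} (hm : ∀ s, m ≤ finrank ℚ (KK N A {w | Λ.Adj s w}))
include h hX hA hm

/-- **the support of a special element consists of twins** -/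
theorem tw_of_sp {g : N} (hg : finrank ℚ (An g) + 1 ≤ m) {s s' : V} (hs : s ∈ Sp N A g)
    (hs' : s' ∈ Sp N A g) : Tw Λ (fun v => ¬ Wide (A v)) s s' := by
  have e : ∀ s ∈ Sp N A g, ∀ s' ∈ Sp N A g,
      KK N A {w | Λ.Adj s w} ⊓ Zr g = KK N A {w | Λ.Adj s' w} ⊓ Zr g := by
    intro s hs s' hs'
    rw [← (sp_facts h (hA s) hs m (hm s) hg).1, ← (sp_facts h (hA s') hs' m (hm s') hg).1]
  have key : ∀ s ∈ Sp N A g, ∀ s' ∈ Sp N A g, ¬ Λ.Adj s s' → ∀ u, Λ.Adj s' u → ¬ Λ.Adj s u →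
      False := by
    intro s hs s' hs' hss u hu hu'
    obtain ⟨-, hb, f, hf, hfg⟩ := claim1 h hX (e s hs s' hs') hu hu'
    have hsu := sp_of_vis h hf hfg
    obtain ⟨-, -, f', hf', hfg'⟩ := claim1 h hX (e s' hs' u hsu) hu.symm (fun h => h.ne rfl)
    exact hfg' (hb s' hss hu.ne f' hf')
  by_cases hss : Λ.Adj s s'
  · right
    obtain ⟨c1, b1, -⟩ := claim1 h hX (e s hs s' hs') hss.symm (fun h => h.ne rfl)
    obtain ⟨c2, b2, -⟩ := claim1 h hX (e s' hs' s hs) hss (fun h => h.ne rfl)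
    refine ⟨c1, c2, hss, fun v hv hv' => ?_⟩
    constructor
    · intro h1
      by_contra h2
      obtain ⟨-, -, f, hf, hfg⟩ := claim1 h hX (e s' hs' s hs) h1 h2
      exact hfg (b2 v h2 hv' f hf)
    · intro h1
      by_contra h2
      obtain ⟨-, -, f, hf, hfg⟩ := claim1 h hX (e s hs s' hs') h1 h2
      exact hfg (b1 v h2 hv f hf)
  · left
    intro v
    constructor
    · intro h1
      by_contra h2
      exact key s' hs' s hs (fun h => hss h.symm) v h1 h2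
    · intro h1
      by_contra h2
      exact key s hs s' hs' hss v h1 h2

/-- special elements are in the normal subgroup of a class -/
theorem special_in [Finite V] {g : N} (hg : finrank ℚ (An g) + 1 ≤ m) (hg1 : g ≠ 1) :
    ∃ t, finrank ℚ (KK N A {w | Λ.Adj t w}) = m ∧ (g : G) ∈ MM N Λ A t := by
  obtain ⟨c, hc⟩ := sp_conj h g
  have hne : ∃ t, t ∈ Sp N A g := by
    by_contra hne
    have h1 : par A (Sp N A g) ≤ ⊥ := par_le fun v hv => (hne ⟨v, hv⟩).elim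
    have h2 : ((c⁻¹ * g * c : N) : G) = 1 := h1 hc
    have h3 : c⁻¹ * g * c = 1 := Subtype.ext h2
    apply hg1
    have h4 : g = c * (c⁻¹ * g * c) * c⁻¹ := by group
    rw [h4, h3]
    group
  obtain ⟨t, ht⟩ := hne
  refine ⟨t, (sp_facts h (hA t) ht m (hm t) hg).2, ?_⟩
  have h1 : Sp N A g ⊆ Cl Λ A t := fun u hu => tw_of_sp h hX hA hm hg ht hu
  have h2 := nc_conj (N := N) (A := fun u : Cl Λ A t => A u) c.2
    (par_le_MM t (par_mono h1 hc))
  have h3 : (c : G) * ((c⁻¹ * g * c : N) : G) * (c : G)⁻¹ = g := by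
    show (c : G) * ((c : G)⁻¹ * g * c) * (c : G)⁻¹ = g
    group
  rw [h3] at h2
  exact h2

end sup

end Run7.h79.FY
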