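import Pool.Agent.Run7.h79.FY.Comb2

/-!
# Automorphisms permute the normal subgroups of the big classes
-/

set_option autoImplicit false

namespace Run7.h79.FY

open Run7.h79.FJ Q30.FJ Module

variable {G : Type} [Group G] {N : Subgroup G} {V : Type} {Λ : SimpleGraph V} {A : V → Subgroup G}

theorem mem_Cl (s : V) : s ∈ Cl Λ A s := Or.inl fun _ => Iff.rfl

theorem seen_el (h : GProd Λ A N) (hX : ∀ v, Seen (A v)) (s : V) :
    ∃ f ∈ KK N A {s}ᶜ, ∃ a : N, (a : G) ∈ A s ∧ f a ≠ 0 := by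
  obtain ⟨p, hp⟩ := h.retr
  obtain ⟨χ, hχ⟩ := hX s
  refine ⟨_, ex1 hp s χ, ?_⟩
  by_contra hn
  apply hχ
  ext a
  by_contra ha
  apply hn
  refine ⟨⟨a, h.le s a.2⟩, a.2, ?_⟩
  show χ (p s ⟨a, h.le s a.2⟩) ≠ 1
  rw [hp.same]
  exact ha

theorem par_comm {S : Set V} {a : G} (h : ∀ u ∈ S, ∀ b ∈ A u, b * a = a * b) {x : G}
    (hx : x ∈ par A S) : x * a = a * x := by
  have h1 : par A S ≤ Subgroup.centralizer {a} := by
    apply par_le
    intro u hu b hb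
    rw [Subgroup.mem_centralizer_iff]
    intro y hy
    rw [Set.mem_singleton_iff.1 hy]
    exact (h u hu b hb).symm
  exact (Subgroup.mem_centralizer_iff.1 (h1 hx) a rfl).symm

/-- **visible elements of a big class are special** -/
theorem vis_special [FiniteDimensional ℚ (XN N)] (h : GProd Λ A N) (hX : ∀ v, Seen (A v))
    (hcy : ∀ v, ¬ Wide (A v) → ∀ a ∈ A v, ∀ b ∈ A v, a * b = b * a) {s : V} {x : N}
    (hx : (x : G) ∈ par A (Cl Λ A s)) {f : N → ℚ} (hf : f ∈ XN N) (hfx : f x ≠ 0) :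
    finrank ℚ (An x) + 1 ≤ finrank ℚ (KK N A {w | Λ.Adj s w}) := by
  have hcom : ∀ w, Λ.Adj s w → ∀ a ∈ A w, (x : G) * a = a * x := by
    intro w hw a ha
    refine par_comm (fun u hu b hb => ?_) hx
    rcases hu with hu | ⟨cs, cu, hsu, hv⟩
    · exact h.comm u w ((hu w).1 hw) b hb a ha
    · by_cases hwu : w = u
      · subst hwu
        exact hcy w cu b hb a ha
      · exact h.comm u w ((hv w hw.ne.symm hwu).1 hw) b hb a ha
  have hle : An x ≤ KK N A {w | Λ.Adj s w} := by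
    intro f' hf'
    refine ⟨hf'.1, fun w hw a ha => hf'.2 a (Subtype.ext (hcom w hw a ha))⟩
  have f1 : FiniteDimensional ℚ (KK N A {w | Λ.Adj s w}) :=
    Submodule.finiteDimensional_of_le (KK_le _)
  suffices hlt : An x < KK N A {w | Λ.Adj s w} from Submodule.finrank_lt_finrank_of_lt hlt
  refine lt_of_le_of_ne hle ?_
  by_cases hB : ∃ u, Λ.Adj s u ∧ ¬ Wide (A s) ∧ ∀ v, v ≠ s → v ≠ u → (Λ.Adj s v ↔ Λ.Adj u v)
  · obtain ⟨u, hsu, cs, hv⟩ := hB
    intro heq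
    obtain ⟨f', hf', a, ha, hfa⟩ := seen_el h hX s
    apply hfa
    have h1 : f' ∈ An x := by
      rw [heq]
      refine KK_mono ?_ hf'
      rintro w hw rfl
      exact hw.ne rfl
    refine h1.2 a (Subtype.ext ?_)
    refine par_comm (fun u' hu' b hb => ?_) hx
    rcases hu' with hu' | ⟨-, -, hsu', -⟩
    · have := Tw.mix (s := u') (t := s) (r := u) (fun v => (hu' v).symm) hsu hv
      subst this
      exact hcy _ cs b hb a ha
    · exact h.comm u' s hsu'.symm b hb a ha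
  · have hleft : ∀ u ∈ Cl Λ A s, ∀ v, Λ.Adj s v ↔ Λ.Adj u v := by
      intro u hu
      rcases hu with hu | ⟨cs, cu, hsu, hv⟩
      · exact hu
      · exact (hB ⟨u, hsu, cs, hv⟩).elim
    intro heq
    obtain ⟨f', hf', hff⟩ := restr h {w | Λ.Adj s w}ᶜ hf
    rw [compl_compl, ← heq] at hf'
    have h1 : f' x = 0 := hf'.2 x rfl
    apply hfx
    have h2 : f - f' ∈ KK N A (Cl Λ A s) := by
      refine ⟨Submodule.sub_mem _ hf hf'.1, fun u hu a ha => ?_⟩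
      show f a - f' a = 0
      rw [hff u (fun h1 => ((hleft u hu u).1 h1).ne rfl) a ha, sub_self]
    have h3 : f x - f' x = 0 := KK_par h2 h.le x hx
    rw [h1, sub_zero] at h3
    exact h3

/-- restriction to a class -/
theorem class_fn (h : GProd Λ A N) {t : V} {z : N} (hz : (z : G) ∈ MM N Λ A t) {f : N → ℚ}
    (hf : f ∈ XN N) (hfz : f z ≠ 0) : ∃ f' ∈ KK N A (Cl Λ A t)ᶜ, f' z ≠ 0 := by
  obtain ⟨f', hf', hff⟩ := restr h (Cl Λ A t) hf
  refine ⟨f', hf', fun h1 => hfz ?_⟩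
  have h3 : (f - f') z = 0 := by
    refine KK_nc (B := fun u : Cl Λ A t => A u) (Submodule.sub_mem _ hf hf'.1) (fun u => h.le u)
      (fun u a ha => ?_) z hz
    show f a - f' a = 0
    rw [hff u u.2 a ha, sub_self]
  have h4 : f z - f' z = 0 := h3
  rw [h1, sub_zero] at h4
  exact h4

theorem kill_other (h : GProd Λ A N) {t r : V} {z : N} (hz : (z : G) ∈ MM N Λ A r) {f : N → ℚ}
    (hf : f ∈ KK N A (Cl Λ A t)ᶜ) (htr : ¬ Tw Λ (fun v => ¬ Wide (A v)) t r) : f z = 0 := by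
  refine KK_nc (B := fun u : Cl Λ A r => A u) hf.1 (fun u => h.le u) (fun u a ha => ?_) z hz
  exact hf.2 u (fun hu => htr (Tw.trans hu (Tw.symm u.2))) a ha

theorem MM_congr {t r : V} (htr : Tw Λ (fun v => ¬ Wide (A v)) t r) :
    MM N Λ A t = MM N Λ A r := by
  have h1 : Cl Λ A t = Cl Λ A r := by
    ext u
    exact ⟨fun hu => (htr.symm).trans hu, fun hu => htr.trans hu⟩
  unfold MM
  rw [h1]

theorem same_class (h : GProd Λ A N) {x y : N} {t r : V} (hx : (x : G) ∈ MM N Λ A t)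
    (hy : (y : G) ∈ MM N Λ A r) (fx : ∃ f ∈ XN N, f x ≠ 0) (fy : ∃ f ∈ XN N, f y ≠ 0)
    (hxy : (∃ f ∈ XN N, f (x * y) ≠ 0) → ∃ q, ((x * y : N) : G) ∈ MM N Λ A q) :
    Tw Λ (fun v => ¬ Wide (A v)) t r := by
  by_contra hn
  obtain ⟨f, hf, hfx⟩ := fx
  obtain ⟨f1, hf1, hfx1⟩ := class_fn h hx hf hfx
  obtain ⟨f', hf', hfy⟩ := fy
  obtain ⟨f2, hf2, hfy2⟩ := class_fn h hy hf' hfy
  have h1 : f1 y = 0 := kill_other h hy hf1 hn
  have h2 : f2 x = 0 := kill_other h hx hf2 (fun h => hn h.symm)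
  have h3 : f1 (x * y) ≠ 0 := by
    rw [hf1.1, h1, add_zero]
    exact hfx1
  have h4 : f2 (x * y) ≠ 0 := by
    rw [hf2.1, h2, zero_add]
    exact hfy2
  obtain ⟨q, hq⟩ := hxy ⟨f1, hf1.1, h3⟩
  have h5 : Tw Λ (fun v => ¬ Wide (A v)) t q := by
    by_contra h5
    exact h3 (kill_other h hq hf1 h5)
  have h6 : Tw Λ (fun v => ¬ Wide (A v)) r q := by
    by_contra h6
    exact h4 (kill_other h hq hf2 h6)
  exact hn (h5.trans h6.symm)

theorem XN_comp {f : N → ℚ} (hf : f ∈ XN N) (φ : N ≃* N) : (fun x => f (φ x)) ∈ XN N := by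
  intro x y
  show f (φ (x * y)) = f (φ x) + f (φ y)
  rw [map_mul, hf]

/-- the centralizer function is invariant -/
theorem An_finrank (φ : N ≃* N) (g : N) : finrank ℚ (An (φ g)) = finrank ℚ (An g) := by
  obtain ⟨e, he⟩ : ∃ e : (N → ℚ) ≃ₗ[ℚ] (N → ℚ), ∀ f x, e f x = f (φ x) :=
    ⟨LinearEquiv.funCongrLeft ℚ ℚ φ.toEquiv, fun f x => rfl⟩
  have h1 : (An (φ g)).map (e : (N → ℚ) →ₗ[ℚ] (N → ℚ)) = An g := by
    ext f
    constructor
    · rintro ⟨f', hf', rfl⟩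
      refine ⟨fun x y => ?_, fun k hk => ?_⟩
      · show e f' (x * y) = e f' x + e f' y
        rw [he, he, he, map_mul, hf'.1]
      · show e f' k = 0
        rw [he]
        apply hf'.2
        rw [← map_mul, hk, map_mul]
    · intro hf
      refine ⟨fun x => f (φ.symm x), ⟨?_, ?_⟩, ?_⟩
      · intro x y
        show f (φ.symm (x * y)) = _
        rw [map_mul, hf.1]
      · intro k hk
        show f (φ.symm k) = 0
        apply hf.2
        apply φ.injective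
        rw [map_mul, map_mul, φ.apply_symm_apply, hk]
      · funext x
        show e _ x = f x
        rw [he, φ.symm_apply_apply]
  rw [← h1]
  exact (LinearEquiv.finrank_map_eq e (An (φ g))).symm

section aut

variable [Finite V] [FiniteDimensional ℚ (XN N)] (h : GProd Λ A N) (hX : ∀ v, Seen (A v))
  (hA : ∀ v, Comm1 (A v)) (hcy : ∀ v, ¬ Wide (A v) → ∀ a ∈ A v, ∀ b ∈ A v, a * b = b * a) {m : ℕ}
  (hm : ∀ s, m ≤ finrank ℚ (KK N A {w | Λ.Adj s w}))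
include h hX hA hm hcy

/-- automorphisms map the subgroup of a big class into one of these subgroups -/
theorem aut_class (φ : N ≃* N) {s : V} (hs : finrank ℚ (KK N A {w | Λ.Adj s w}) = m) :
    ∃ t, finrank ℚ (KK N A {w | Λ.Adj t w}) = m ∧
      ∀ y : N, (y : G) ∈ MM N Λ A s → ((φ y : N) : G) ∈ MM N Λ A t := by
  have hvis : ∀ x : N, (∃ f ∈ XN N, f (φ x) ≠ 0) → ∃ f ∈ XN N, f x ≠ 0 := by
    rintro x ⟨f, hf, hfx⟩
    exact ⟨_, XN_comp hf φ, hfx⟩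
  have hvis' : ∀ x : N, (∃ f ∈ XN N, f x ≠ 0) → ∃ f ∈ XN N, f (φ x) ≠ 0 := by
    rintro x ⟨f, hf, hfx⟩
    refine ⟨_, XN_comp hf φ.symm, ?_⟩
    show f (φ.symm (φ x)) ≠ 0
    rw [φ.symm_apply_apply]
    exact hfx
  have hin : ∀ x : N, (x : G) ∈ par A (Cl Λ A s) → (∃ f ∈ XN N, f x ≠ 0) →
      ∃ q, finrank ℚ (KK N A {w | Λ.Adj q w}) = m ∧ ((φ x : N) : G) ∈ MM N Λ A q := by
    rintro x hx ⟨f, hf, hfx⟩
    apply special_in h hX hA hm
    · rw [An_finrank, ← hs]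
      exact vis_special h hX hcy hx hf hfx
    · intro h1
      have h2 : x = 1 := φ.injective (by rw [h1, map_one])
      rw [h2, one_val hf] at hfx
      exact hfx rfl
  obtain ⟨f0, hf0, a0, ha0, hfa0⟩ := seen_el h hX s
  have ha0' : (a0 : G) ∈ par A (Cl Λ A s) := le_par (A := A) (S := Cl Λ A s) (v := s) (mem_Cl s) ha0
  obtain ⟨t, ht, ha0t⟩ := hin a0 ha0' ⟨f0, hf0.1, hfa0⟩
  refine ⟨t, ht, ?_⟩
  have hv : ∀ x : N, (x : G) ∈ par A (Cl Λ A s) → (∃ f ∈ XN N, f x ≠ 0) →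
      ((φ x : N) : G) ∈ MM N Λ A t := by
    intro x hx hfx
    obtain ⟨q, -, hq⟩ := hin x hx hfx
    have h1 := same_class h ha0t hq (hvis' a0 ⟨f0, hf0.1, hfa0⟩) (hvis' x hfx) (by
      intro h2
      rw [← map_mul] at h2 ⊢
      obtain ⟨q', -, hq'⟩ := hin (a0 * x) (Subgroup.mul_mem _ ha0' hx) (hvis _ h2)
      exact ⟨q', hq'⟩)
    rw [MM_congr h1]
    exact hq
  have hall : ∀ x : N, (x : G) ∈ par A (Cl Λ A s) → ((φ x : N) : G) ∈ MM N Λ A t := by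
    intro x hx
    by_cases hfx : ∃ f ∈ XN N, f x ≠ 0
    · exact hv x hx hfx
    · have h1 : f0 x = 0 := by
        by_contra h1
        exact hfx ⟨f0, hf0.1, h1⟩
      have h2 := hv (a0 * x) (Subgroup.mul_mem _ ha0' hx) ⟨f0, hf0.1, by
        rw [hf0.1, h1, add_zero]
        exact hfa0⟩
      have h3 : φ x = (φ a0)⁻¹ * φ (a0 * x) := by
        rw [map_mul]
        group
      rw [h3]
      exact Subgroup.mul_mem _ (Subgroup.inv_mem _ ha0t) h2
  have h1 : MM N Λ A s ≤ ((MM N Λ A t).comap (N.subtype.comp φ.toMonoidHom)).map N.subtype := by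
    apply nc_le_of
    · rintro n hn _ ⟨y, hy, rfl⟩
      refine ⟨⟨n, hn⟩ * y * ⟨n, hn⟩⁻¹, ?_, rfl⟩
      show ((φ (⟨n, hn⟩ * y * ⟨n, hn⟩⁻¹) : N) : G) ∈ MM N Λ A t
      rw [map_mul, map_mul, map_inv]
      exact nc_conj (φ ⟨n, hn⟩).2 hy
    · intro u a ha
      exact ⟨⟨a, h.le u ha⟩, hall _ (le_par (A := A) (S := Cl Λ A s) (v := u) u.2 ha), rfl⟩
  intro y hy
  obtain ⟨z, hz, hzy⟩ := h1 hy
  have h2 : z = y := Subtype.ext hzy
  rw [← h2]
  exact hz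

theorem aut_eq (φ : N ≃* N) {s : V} (hs : finrank ℚ (KK N A {w | Λ.Adj s w}) = m) :
    ∃ t, ∀ y : N, (y : G) ∈ MM N Λ A s ↔ ((φ y : N) : G) ∈ MM N Λ A t := by
  obtain ⟨t, ht, h1⟩ := aut_class h hX hA hcy hm φ hs
  obtain ⟨r, hr, h2⟩ := aut_class h hX hA hcy hm φ.symm ht
  refine ⟨t, fun y => ⟨h1 y, fun hy => ?_⟩⟩
  have h3 := h2 _ hy
  rw [φ.symm_apply_apply] at h3
  suffices h4 : Tw Λ (fun v => ¬ Wide (A v)) s r by
    rw [MM_congr h4]
    exact h3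
  obtain ⟨f0, hf0, a0, ha0, hfa0⟩ := seen_el h hX s
  have ha0' : (a0 : G) ∈ MM N Λ A s :=
    par_le_MM s (le_par (A := A) (S := Cl Λ A s) (v := s) (mem_Cl s) ha0)
  have h5 := h2 _ (h1 a0 ha0')
  rw [φ.symm_apply_apply] at h5
  by_contra h6
  refine hfa0 (kill_other (t := s) h h5 (KK_mono ?_ hf0) h6)
  rintro u hu rfl
  exact hu (mem_Cl u)

/-- **a power of every element preserves the subgroup of a big class** -/
theorem exists_pow [hn : N.Normal] {s : V} (hs : finrank ℚ (KK N A {w | Λ.Adj s w}) = m) (g : G) :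
    ∃ k : ℕ, 0 < k ∧ ∀ y ∈ N, y ∈ MM N Λ A s ↔ g ^ k * y * (g ^ k)⁻¹ ∈ MM N Λ A s := by
  have h1 : ∀ n : ℕ, ∃ t, ∀ y : N, (y : G) ∈ MM N Λ A s ↔
      g ^ n * y * (g ^ n)⁻¹ ∈ MM N Λ A t := fun n =>
    aut_eq h hX hA hcy hm (MulAut.conjNormal (g ^ n) : MulAut N) hs
  choose t ht using h1
  obtain ⟨i, j, hij, heq⟩ := Finite.exists_ne_map_eq_of_infinite t
  wlog hlt : i < j generalizing i j
  · exact this j i hij.symm heq.symm (lt_of_le_of_ne (not_lt.1 hlt) hij.symm)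
  obtain ⟨d, hd⟩ : ∃ d, d = j - i := ⟨_, rfl⟩
  have hj : j = i + d := by omega
  refine ⟨d, by omega, fun y hy => ?_⟩
  have h2 := ht j ⟨y, hy⟩
  have h3 := ht i ⟨g ^ d * y * (g ^ d)⁻¹, hn.conj_mem y hy _⟩
  have h4 : g ^ i * (g ^ d * y * (g ^ d)⁻¹) * (g ^ i)⁻¹ = g ^ j * y * (g ^ j)⁻¹ := by
    rw [hj, pow_add]
    group
  change g ^ d * y * (g ^ d)⁻¹ ∈ MM N Λ A s ↔
    g ^ i * (g ^ d * y * (g ^ d)⁻¹) * (g ^ i)⁻¹ ∈ MM N Λ A (t i) at h3
  rw [h4, heq] at h3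
  exact h2.trans h3.symm

end aut

end Run7.h79.FY
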