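import Pool.Agent.Run7.h79.FY.Ind
import Pool.Agent.Run7.h79.FJ.Fin

/-!
# Statements for abstract graph products
-/

set_option autoImplicit false

namespace Run7.h79.FY

open Run7.h79.FJ Q30.FJ Module Monoid Pool.Agent.Y110.FJ
open Pool.Agent.R941.FJ (C_equiv C_le C_cyc)

variable {C : ∀ (G : Type) [Group G], Prop}

/-- a group is a good kernel if the mapping tori of its automorphisms are in the class -/
theorem good_of_tori (hC : ClosedE C) {A : Type} [Group A]
    (hA : ∀ α : MulAut A, C (A ⋊[zpowersHom (MulAut A) α] Multiplicative ℤ)) :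
    Run7.h79.FJ.Good C A := by
  intro G _ K hKn ⟨e⟩ hQ
  have hcyc : ∀ g : G, C ↥(K ⊔ Subgroup.zpowers g) := by
    intro g
    obtain ⟨c, hc⟩ : ∃ c : MulAut K, c = MulAut.conjNormal g := ⟨_, rfl⟩
    obtain ⟨α, hα⟩ : ∃ α : MulAut A, α = (e.symm.trans c).trans e := ⟨_, rfl⟩
    refine Pool.Agent.R684.FP.cyc_real hC K g
      (fun x => ⟨fun hx => hKn.conj_mem x hx g, fun hx => ?_⟩)
      ((SemidirectProduct.inl (φ := zpowersHom (MulAut A) α)).comp e.toMonoidHom) ?_
      (SemidirectProduct.inr (Multiplicative.ofAdd 1)) ?_ (hA α)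
    · have := hKn.conj_mem _ hx g⁻¹
      have h2 : g⁻¹ * (g * x * g⁻¹) * g⁻¹⁻¹ = x := by group
      rwa [h2] at this
    · exact SemidirectProduct.inl_injective.comp e.injective
    · intro x y hxy
      have h1 : y = c x := by
        apply Subtype.ext
        rw [hc, MulAut.conjNormal_apply, hxy]
      show SemidirectProduct.inl (e y) = SemidirectProduct.inr (Multiplicative.ofAdd 1) *
        SemidirectProduct.inl (e x) * (SemidirectProduct.inr (Multiplicative.ofAdd 1))⁻¹
      rw [← map_inv, ← SemidirectProduct.inl_aut]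
      congr 1
      rw [zpowersHom_apply, toAdd_ofAdd, zpow_one, hα, h1]
      show e (c x) = e (c (e.symm (e x)))
      rw [e.symm_apply_apply]
  refine Pool.Agent.Y529.FJ.t_ext C hC G K ?_ hQ fun g _ => hcyc g
  exact C_le hC.base le_sup_left (hcyc 1)

/-- the third kind of vertex groups: finitely generated, torsion-free, freely indecomposable groups
such that every element is killed by a nonzero homomorphism to the rational numbers (`betti`, the first
Betti number is at least two), and homomorphisms to the rational numbers which kill a nontrivial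
element kill its centralizer (`cent`, for example because nontrivial commuting elements have a common
power). Examples are the fundamental groups of the closed surfaces with negative Euler characteristic
and all one-ended torsion-free hyperbolic groups with first Betti number at least two. -/
structure HypLike (A : Type) [Group A] : Prop where
  fg : Group.FG A
  tf : ∀ (a : A) (n : ℕ), 0 < n → a ^ n = 1 → a = 1
  indec : ∀ (B D : Type) [Group B] [Group D], Nontrivial B → Nontrivial D →
    IsEmpty (A ≃* Monoid.Coprod B D)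
  cent : ∀ a b : A, a ≠ 1 → a * b = b * a → ∀ f : A →* Multiplicative ℚ, f a = 1 → f b = 1
  betti : ∀ a : A, ∃ f : A →* Multiplicative ℚ, f ≠ 1 ∧ f a = 1

theorem HypLike.kgood {A : Type} [Group A] (h : HypLike A) : Pool.Agent.Q32.DP.KSF.Good A := by
  refine ⟨fun g hg n hn hgn => hg (h.tf g n (Nat.pos_of_ne_zero hn) hgn), ?_, ?_⟩
  · rintro ⟨B, D, iB, iD, hB, hD, he⟩
    exact (h.indec B D hB hD).false he.some
  · rintro ⟨t, ht⟩
    obtain ⟨f, hf, hft⟩ := h.betti t
    apply hf
    ext x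
    obtain ⟨n, rfl⟩ := ht x
    show f (t ^ n) = 1
    rw [map_zpow, hft, one_zpow]

theorem HypLike.vert {A : Type} [Group A] (h : HypLike A) (hg : Run7.h79.FJ.Good C A) :
    Vert C A :=
  ⟨h.fg, h.kgood.1, h.cent, Or.inr ⟨h.betti, h.kgood, hg⟩⟩

theorem tf_cyc {A : Type} [Group A] (hc : IsCyclic A) (hf : ¬ Finite A) (g : A) (hg : g ≠ 1)
    (m : ℕ) (hm : m ≠ 0) : g ^ m ≠ 1 := by
  intro hgm
  apply hf
  obtain ⟨y, hy⟩ := hc.exists_generator
  obtain ⟨n, rfl⟩ := Subgroup.mem_zpowers_iff.1 (hy g)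
  have hn0 : n ≠ 0 := by
    rintro rfl
    exact hg (zpow_zero y)
  have hyf : IsOfFinOrder y := by
    rw [isOfFinOrder_iff_zpow_eq_one]
    refine ⟨n * m, mul_ne_zero hn0 (by exact_mod_cast hm), ?_⟩
    rw [zpow_mul, zpow_natCast, hgm]
  have hfz : Finite (Subgroup.zpowers y) := (finite_zpowers.2 hyf).to_subtype
  have htop : Subgroup.zpowers y = ⊤ := by
    rw [eq_top_iff]
    rintro z -
    exact hy z
  rw [htop] at hfz
  exact Finite.of_equiv _ Subgroup.topEquiv.toEquiv

theorem vert_cyc {A : Type} [Group A] (hc : IsCyclic A) (hf : ¬ Finite A) : Vert C A := by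
  obtain ⟨t, ht⟩ := hc.exists_generator
  refine ⟨?_, tf_cyc hc hf, ?_, Or.inl ⟨hc, hf⟩⟩
  · rw [Group.fg_iff]
    refine ⟨{t}, ?_, Set.finite_singleton t⟩
    rw [eq_top_iff]
    rintro x -
    rw [← Subgroup.zpowers_eq_closure]
    exact ht x
  · intro a b ha _ f hfa
    obtain ⟨m, rfl⟩ := Subgroup.mem_zpowers_iff.1 (ht a)
    obtain ⟨n, rfl⟩ := Subgroup.mem_zpowers_iff.1 (ht b)
    have hm : m ≠ 0 := by
      rintro rfl
      exact ha (zpow_zero t)
    rw [map_zpow] at hfa
    rw [map_zpow, qq_pow hm hfa, one_zpow]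

/-- transport of graph products -/
theorem transport {G₀ G V : Type} [Group G₀] [Group G] {Λ : SimpleGraph V} {A : V → Subgroup G₀}
    {N : Subgroup G₀} (h : GProd Λ A N) {N' : Subgroup G} (e : N' ≃* N) :
    ∃ B : V → Subgroup G, GProd Λ B N' ∧ ∀ v, Nonempty (A v ≃* B v) := by
  obtain ⟨j, hj⟩ : ∃ j : N →* G, j = N'.subtype.comp e.symm.toMonoidHom := ⟨_, rfl⟩
  have hji : Function.Injective j := by
    rw [hj]
    exact N'.subtype_injective.comp e.symm.injective
  obtain ⟨B, hB⟩ : ∃ B : V → Subgroup G, ∀ v, B v = ((A v).subgroupOf N).map j :=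
    ⟨_, fun _ => rfl⟩
  have hrange : j.range = N' := by
    rw [hj]
    ext z
    constructor
    · rintro ⟨y, rfl⟩
      exact (e.symm y).2
    · intro hz
      exact ⟨e ⟨z, hz⟩, congrArg Subtype.val (e.symm_apply_apply ⟨z, hz⟩)⟩
  have hBN : ∀ v, B v ≤ N' := by
    intro v
    rw [hB, ← hrange]
    rintro _ ⟨y, _, rfl⟩
    exact ⟨y, rfl⟩
  have hmem : ∀ v (a : A v), j ⟨a, h.le v a.2⟩ ∈ B v := fun v a => by
    rw [hB]
    exact ⟨⟨a, h.le v a.2⟩, a.2, rfl⟩
  refine ⟨B, ⟨hBN, ?_, ?_, ?_⟩, ?_⟩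
  · intro M hM
    have h1 : N ≤ (M.comap j).map N.subtype := by
      apply h.gen
      intro v a ha
      exact ⟨⟨a, h.le v ha⟩, hM v (hmem v ⟨a, ha⟩), rfl⟩
    rw [← hrange]
    rintro _ ⟨y, rfl⟩
    obtain ⟨z, hz, hzy⟩ := h1 y.2
    have : z = y := Subtype.ext hzy
    rwa [this] at hz
  · intro v w hvw a ha b hb
    rw [hB] at ha hb
    obtain ⟨a', ha', rfl⟩ := ha
    obtain ⟨b', hb', rfl⟩ := hb
    rw [← map_mul, ← map_mul]
    congr 1
    exact Subtype.ext (h.comm v w hvw _ ha' _ hb')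
  · intro H _ f hf
    obtain ⟨φ, hφ⟩ := h.univ H (fun v => (f v).comp (MonoidHom.mk' (fun a => ⟨_, hmem v a⟩)
      (fun a b => Subtype.ext (map_mul j ⟨a.1, h.le v a.2⟩ ⟨b.1, h.le v b.2⟩)))) (by
        intro v w hvw a b
        exact hf v w hvw _ _)
    refine ⟨φ.comp e.toMonoidHom, ?_⟩
    rintro v ⟨b, hb⟩
    have hb' : b ∈ ((A v).subgroupOf N).map j := by rw [← hB]; exact hb
    obtain ⟨a, ha, rfl⟩ := hb'
    have h1 : e ⟨j a, hBN v hb⟩ = a := by
      apply e.symm.injective
      rw [e.symm_apply_apply]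
      apply Subtype.ext
      show j a = (e.symm a : N')
      rw [hj]
      rfl
    show φ (e ⟨j a, _⟩) = _
    rw [h1]
    exact hφ v ⟨a.1, ha⟩
  · intro v
    obtain ⟨e2⟩ := map_equiv j ((A v).subgroupOf N) (fun y _ hy => hji (hy.trans (map_one j).symm))
    rw [hB]
    exact ⟨(Subgroup.subgroupOfEquivOfLe (h.le v)).symm.trans e2⟩

/-- graph products without finite vertex groups -/
theorem good_Y (hC : ClosedE C) (hF : Pool.Agent.R684.FP.FbC C)
    (hB : ∀ (B : Type) [CommGroup B] (α : MulAut B),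
      C (B ⋊[zpowersHom (MulAut B) α] Multiplicative ℤ))
    {G₀ V : Type} [Group G₀] [Finite V] {Λ : SimpleGraph V} {A : V → Subgroup G₀}
    {N : Subgroup G₀} (h : GProd Λ A N) (hV : ∀ v, Vert C (A v)) : Run7.h79.FJ.Good C N := by
  intro G _ N' _ ⟨e⟩ hQ
  obtain ⟨B, hB', he⟩ := transport h e
  refine main_Y hC hF hB _ V rfl Λ G B N' hB' (fun v => ?_) hQ
  obtain ⟨f⟩ := he v
  exact (hV v).equiv f

/-- **graph products of finite, cyclic and hyperbolic-like groups** -/
theorem good_fch (hC : ClosedE C) (hF : Pool.Agent.R684.FP.FbC C)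
    (hB : ∀ (B : Type) [CommGroup B] (α : MulAut B),
      C (B ⋊[zpowersHom (MulAut B) α] Multiplicative ℤ))
    {G₀ V : Type} [Group G₀] [Finite V] {Λ : SimpleGraph V} {A : V → Subgroup G₀}
    {N : Subgroup G₀} (h : GProd Λ A N)
    (hA : ∀ v, Finite (A v) ∨ IsCyclic (A v) ∨ (HypLike (A v) ∧ Run7.h79.FJ.Good C (A v))) :
    Run7.h79.FJ.Good C N := by
  have hV : ∀ v, ¬ Finite (A v) → Vert C (A v) := by
    intro v hv
    rcases hA v with h1 | h1 | ⟨h1, h2⟩
    · exact (hv h1).elim
    · exact vert_cyc h1 hv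
    · exact h1.vert h2
  refine good_gprod (closedF hC hF) h {v | Finite (A v)} (fun v hv => hv) ?_ ?_
  · intro v m hm
    by_cases hf : Finite (A v)
    · exact FT.of_finite m _ hf
    · refine ⟨{1}, Set.finite_singleton _, fun x hx hxm => ⟨1, Subgroup.one_mem _, ?_⟩⟩
      have h1 : x = 1 := by
        by_contra hne
        exact (hV v hf).tf ⟨x, hx⟩ (fun h2 => hne (congrArg Subtype.val h2)) m hm (Subtype.ext hxm)
      rw [h1]
      simp
  · exact good_Y hC hF hB (GProd.par h _) (fun v => hV v v.2)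

/-- **finite index overgroups of graph products of finite, cyclic and hyperbolic-like groups** -/
theorem part_three (hC : ClosedE C) (hF : Pool.Agent.R684.FP.FbC C)
    (hB : ∀ (B : Type) [CommGroup B] (α : MulAut B),
      C (B ⋊[zpowersHom (MulAut B) α] Multiplicative ℤ))
    {K V : Type} [Group K] (H : Subgroup K) [H.FiniteIndex] [Finite V] {Γ : SimpleGraph V}
    {A : V → Subgroup H} (h : IsGraphProduct Γ A)
    (hA : ∀ v, Finite (A v) ∨ IsCyclic (A v) ∨ (HypLike (A v) ∧
      ∀ α : MulAut (A v), C (A v ⋊[zpowersHom (MulAut (A v)) α] Multiplicative ℤ))) :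
    Run7.h79.FJ.Good C K := by
  have h1 : Run7.h79.FJ.Good C H := by
    refine Run7.h79.FJ.Good.equiv (good_fch hC hF hB h.gprod fun v => ?_) Subgroup.topEquiv
    rcases hA v with h1 | h1 | ⟨h1, h2⟩
    · exact Or.inl h1
    · exact Or.inr (Or.inl h1)
    · exact Or.inr (Or.inr ⟨h1, good_of_tori hC h2⟩)
  have hfg : Group.FG H := by
    have h2 : ∀ v, (A v).FG := by
      intro v
      rw [← Group.fg_iff_subgroup_fg]
      rcases hA v with h3 | h3 | ⟨h3, -⟩
      · infer_instance
      · obtain ⟨g, hg⟩ := h3.exists_generator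
        rw [Group.fg_iff]
        refine ⟨{g}, ?_, Set.finite_singleton g⟩
        rw [eq_top_iff]
        rintro x -
        rw [← Subgroup.zpowers_eq_closure]
        exact hg x
      · exact h3.fg
    choose T hT using h2
    rw [Group.fg_iff]
    refine ⟨⋃ v, (T v : Set H), ?_, Set.finite_iUnion fun v => (T v).finite_toSet⟩
    rw [Subgroup.closure_iUnion, ← h.gen]
    exact iSup_congr hT
  exact good_virt hC (fg_of_index H Subgroup.FiniteIndex.index_ne_zero
    ((Group.fg_iff_subgroup_fg H).1 hfg)) H Subgroup.FiniteIndex.index_ne_zero h1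

end Run7.h79.FY
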