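import Pool.Agent.Run7.h79.FY.Clq

/-!
# The induction
-/

set_option autoImplicit false

namespace Run7.h79.FY

open Run7.h79.FJ Q30.FJ Module Monoid Pool.Agent.Y110.FJ
open Pool.Agent.R941.FJ (C_equiv C_le C_cyc)

/-- the conditions on the vertex groups -/
structure Vert (C : ∀ (G : Type) [Group G], Prop) (B : Type) [Group B] : Prop where
  fg : Group.FG B
  tf : ∀ g : B, g ≠ 1 → ∀ n : ℕ, n ≠ 0 → g ^ n ≠ 1
  comm : Comm1 B
  alt : (IsCyclic B ∧ ¬ Finite B) ∨
    (Wide B ∧ Pool.Agent.Q32.DP.KSF.Good B ∧ Run7.h79.FJ.Good C B)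

theorem Comm1.equiv {B B' : Type} [Group B] [Group B'] (h : Comm1 B) (e : B ≃* B') : Comm1 B' := by
  intro a b ha hab f hf
  have h1 := h (e.symm a) (e.symm b) (fun h1 => ha (by
    rw [← e.apply_symm_apply a, h1, map_one])) (by rw [← map_mul, hab, map_mul])
    (f.comp e.toMonoidHom) (by
      show f (e (e.symm a)) = 1
      rw [e.apply_symm_apply, hf])
  have h2 : f (e (e.symm b)) = 1 := h1
  rwa [e.apply_symm_apply] at h2

theorem Wide.equiv {B B' : Type} [Group B] [Group B'] (h : Wide B) (e : B ≃* B') : Wide B' := by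
  intro x
  obtain ⟨χ, hχ, h1⟩ := h (e.symm x)
  refine ⟨χ.comp e.symm.toMonoidHom, fun h2 => hχ ?_, h1⟩
  ext y
  have h3 := DFunLike.congr_fun h2 (e y)
  have h4 : χ (e.symm (e y)) = 1 := h3
  rw [e.symm_apply_apply] at h4
  exact h4

theorem kgood_equiv {B B' : Type} [Group B] [Group B'] (h1 : Pool.Agent.Q32.DP.KSF.Good B)
    (e : B ≃* B') : Pool.Agent.Q32.DP.KSF.Good B' := by
  refine ⟨?_, ?_, ?_⟩
  · intro g hg n hn hgn
    refine h1.1 (e.symm g) (fun h3 => hg ?_) n hn ?_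
    · rw [← e.apply_symm_apply g, h3, map_one]
    · rw [← map_pow, hgn, map_one]
  · rintro ⟨X, Y, iX, iY, hX, hY, ⟨f⟩⟩
    exact h1.2.1 ⟨X, Y, iX, iY, hX, hY, ⟨e.trans f⟩⟩
  · rintro ⟨t, ht⟩
    refine h1.2.2 ⟨e.symm t, fun g => ?_⟩
    obtain ⟨n, hn⟩ := ht (e g)
    refine ⟨n, ?_⟩
    rw [← map_zpow, hn, e.symm_apply_apply]

variable {C : ∀ (G : Type) [Group G], Prop}

theorem Vert.equiv {B B' : Type} [Group B] [Group B'] (h : Vert C B) (e : B ≃* B') :
    Vert C B' where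
  fg := by
    have := h.fg
    exact Group.fg_of_surjective (f := e.toMonoidHom) e.surjective
  tf := by
    intro g hg n hn hgn
    refine h.tf (e.symm g) (fun h3 => hg ?_) n hn ?_
    · rw [← e.apply_symm_apply g, h3, map_one]
    · rw [← map_pow, hgn, map_one]
  comm := h.comm.equiv e
  alt := by
    rcases h.alt with ⟨h1, h2⟩ | ⟨h1, h2, h3⟩
    · exact Or.inl ⟨isCyclic_of_surjective e e.surjective, fun h3 =>
        h2 (Finite.of_equiv _ e.symm.toEquiv)⟩
    · exact Or.inr ⟨h1.equiv e, kgood_equiv h2 e, h3.equiv e⟩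

theorem seen_cyc {G : Type} [Group G] (B : Subgroup G) (hc : IsCyclic B) (hB : ¬ Finite B) :
    Seen B := by
  obtain ⟨⟨x, hx⟩, hgx⟩ := hc.exists_generator
  have h1 : B = Subgroup.zpowers x := by
    apply le_antisymm
    · intro y hy
      obtain ⟨n, hn⟩ := hgx ⟨y, hy⟩
      exact ⟨n, congrArg Subtype.val hn⟩
    · rw [Subgroup.zpowers_le]
      exact hx
  obtain ⟨f, hf⟩ := cyc_hom B hB x h1 QQ (Multiplicative.ofAdd 1)
  refine ⟨f, fun h2 => ?_⟩
  have h3 := hf hx
  rw [h2] at h3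
  have h4 : (0 : ℚ) = 1 := h3
  exact zero_ne_one h4

theorem Vert.seen {G : Type} [Group G] {B : Subgroup G} (h : Vert C B) : Seen B := by
  rcases h.alt with ⟨h1, h2⟩ | ⟨h1, -, -⟩
  · exact seen_cyc B h1 h2
  · obtain ⟨χ, hχ, -⟩ := h1 1
    exact ⟨χ, hχ⟩

theorem Vert.cyc {B : Type} [Group B] (h : Vert C B) (hw : ¬ Wide B) : IsCyclic B ∧ ¬ Finite B := by
  rcases h.alt with h1 | ⟨h1, -, -⟩
  · exact h1
  · exact (hw h1).elim

theorem cyc_comm {B : Type} [Group B] (h : IsCyclic B) (a b : B) : a * b = b * a := by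
  obtain ⟨t, ht⟩ := h.exists_generator
  obtain ⟨m, rfl⟩ := Subgroup.mem_zpowers_iff.1 (ht a)
  obtain ⟨n, rfl⟩ := Subgroup.mem_zpowers_iff.1 (ht b)
  rw [← zpow_add, ← zpow_add, add_comm]

theorem Vert.comm' {G : Type} [Group G] {B : Subgroup G} (h : Vert C B) (hw : ¬ Wide B) :
    ∀ a ∈ B, ∀ b ∈ B, a * b = b * a := fun a ha b hb =>
  congrArg Subtype.val (cyc_comm (h.cyc hw).1 ⟨a, ha⟩ ⟨b, hb⟩)

/-- the space of homomorphisms is finite dimensional -/
theorem fin_dim {G : Type} [Group G] {N : Subgroup G} {V : Type} [Finite V] {Λ : SimpleGraph V}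
    {A : V → Subgroup G} (h : GProd Λ A N) (hfg : ∀ v, Group.FG (A v)) :
    FiniteDimensional ℚ (XN N) := by
  classical
  have h1 : ∀ v, ∃ T : Set (A v), T.Finite ∧ Subgroup.closure T = ⊤ := by
    intro v
    obtain ⟨T, hT, h2⟩ := Group.fg_iff.1 (hfg v)
    exact ⟨T, h2, hT⟩
  choose T hTf hT using h1
  have : ∀ v, Finite (T v) := hTf
  obtain ⟨e, he⟩ : ∃ e : XN N →ₗ[ℚ] ((Σ v, T v) → ℚ), ∀ f i,
      e f i = f.1 ⟨i.2.1.1, h.le i.1 i.2.1.2⟩ :=
    ⟨{ toFun := fun f i => f.1 ⟨i.2.1.1, h.le i.1 i.2.1.2⟩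
       map_add' := fun f f' => rfl
       map_smul' := fun c f => rfl }, fun f i => rfl⟩
  apply Module.Finite.of_injective e
  rw [injective_iff_map_eq_zero]
  intro f hf
  apply Subtype.ext
  funext x
  apply zero_of_all h
  refine ⟨f.2, fun v _ a ha => ?_⟩
  have h2 : (⊤ : Subgroup (A v)) ≤ ((hm f.2).comp (Subgroup.inclusion (h.le v))).ker := by
    rw [← hT v, Subgroup.closure_le]
    intro t ht
    have h3 := congrFun hf ⟨v, ⟨t, ht⟩⟩
    rw [he] at h3
    exact h3
  exact h2 (Subgroup.mem_top (⟨a, ha⟩ : A v))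

/-- normal closures in subgroups -/
theorem nc_sub {G : Type} [Group G] {N K : Subgroup G} (hNK : N ≤ K) {U : Type}
    (B : U → Subgroup G) (hB : ∀ u, B u ≤ N) :
    nc (N.subgroupOf K) (fun u => (B u).subgroupOf K) = (nc N B).subgroupOf K := by
  apply le_antisymm
  · apply nc_le_of
    · intro n hn y hy
      exact nc_conj (N := N) (A := B) hn hy
    · intro u a ha
      exact le_nc (N := N) (A := B) u ha
  · have h1 : nc N B ≤ (nc (N.subgroupOf K) (fun u => (B u).subgroupOf K)).map K.subtype := by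
      apply nc_le_of
      · rintro n hn _ ⟨y, hy, rfl⟩
        exact ⟨⟨n, hNK hn⟩ * y * ⟨n, hNK hn⟩⁻¹, nc_conj (N := N.subgroupOf K)
          (A := fun u => (B u).subgroupOf K) (n := ⟨n, hNK hn⟩) hn hy, rfl⟩
      · intro u a ha
        exact ⟨⟨a, hNK (hB u ha)⟩, le_nc (A := fun u => (B u).subgroupOf K) u ha, rfl⟩
    intro y hy
    obtain ⟨z, hz, hzy⟩ := h1 hy
    have h2 : z = y := Subtype.ext hzy
    rw [← h2]
    exact hz

section step

variable {G : Type} [Group G] {N : Subgroup G} {V : Type} {Λ : SimpleGraph V} {A : V → Subgroup G}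

theorem nc_congr_le {U U' : Type} {B : U → Subgroup G} {B' : U' → Subgroup G}
    (h : ∀ u, B u ≤ nc N B') (h' : ∀ u, B' u ≤ nc N B) : nc N B = nc N B' :=
  le_antisymm (nc_le_of (fun _ hn _ hy => nc_conj hn hy) h)
    (nc_le_of (fun _ hn _ hy => nc_conj hn hy) h')

/-- **the kernel of a class** -/
theorem step (hC : ClosedE C) (hF : Pool.Agent.R684.FP.FbC C)
    (hB : ∀ (B : Type) [CommGroup B] (α : MulAut B),
      C (B ⋊[zpowersHom (MulAut B) α] Multiplicative ℤ)) [Finite V] (h : GProd Λ A N)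
    (hV : ∀ v, Vert C (A v)) (s : V) (hn : (MM N Λ A s).Normal) (hQ : C (G ⧸ MM N Λ A s)) :
    C G := by
  by_cases hcl : ∃ t, Λ.Adj s t ∧ ¬ Wide (A s) ∧ ¬ Wide (A t) ∧
      ∀ v, v ≠ s → v ≠ t → (Λ.Adj s v ↔ Λ.Adj t v)
  · obtain ⟨t, hst, cs, ct, hvt⟩ := hcl
    obtain ⟨U, hU⟩ : ∃ U, U = Cl Λ A s := ⟨_, rfl⟩
    have htU : t ∈ U := by
      rw [hU]
      exact Or.inr ⟨cs, ct, hst, hvt⟩
    have hsU : s ∈ U := by
      rw [hU]
      exact mem_Cl s
    have hor : ∀ u ∈ U, u = s ∨ (¬ Wide (A u) ∧ Λ.Adj s u ∧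
        ∀ v, v ≠ s → v ≠ u → (Λ.Adj s v ↔ Λ.Adj u v)) := by
      intro u hu
      rw [hU] at hu
      rcases hu with hu | ⟨-, cu, hsu, hv⟩
      · left
        exact Tw.mix (fun v => (hu v).symm) hst hvt
      · exact Or.inr ⟨cu, hsu, hv⟩
    have hcy : ∀ u ∈ U, ¬ Wide (A u) := by
      intro u hu
      rcases hor u hu with rfl | h1
      · exact cs
      · exact h1.1
    have hadj : ∀ u ∈ U, ∀ w ∈ U, u ≠ w → Λ.Adj u w := by
      intro u hu w hw huw
      rcases hor u hu with rfl | ⟨-, h1, h2⟩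
      · rcases hor w hw with rfl | ⟨-, h3, -⟩
        · exact (huw rfl).elim
        · exact h3
      · rcases hor w hw with rfl | ⟨-, h3, -⟩
        · exact h1.symm
        · exact (h2 w h3.ne.symm huw.symm).1 h3
    have hout : ∀ u ∈ U, ∀ w, w ∉ U → (Λ.Adj u w ↔ w ∈ {w | w ∉ U ∧ Λ.Adj s w}) := by
      intro u hu w hw
      have h4 : w ∈ {w | w ∉ U ∧ Λ.Adj s w} ↔ Λ.Adj s w := ⟨fun h => h.2, fun h => ⟨hw, h⟩⟩
      rw [h4]
      rcases hor u hu with rfl | ⟨-, -, h2⟩
      · exact Iff.rfl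
      · exact (h2 w (fun h => hw (h ▸ hsU)) (fun h => hw (h ▸ hu))).symm
    have hrel := relU h U {w | w ∉ U ∧ Λ.Adj s w} (fun w hw => hw.1) hout ⟨s, hsU⟩
    have hM : MM N Λ A s = nc N (fun _ : Unit => par A U) := by
      subst hU
      apply nc_congr_le
      · intro u
        exact (le_par u.2).trans (le_nc (N := N) (A := fun _ : Unit => par A (Cl Λ A s)) ())
      · intro _
        exact par_le_MM s
    have hnt : ∀ v, ∃ a ∈ A v, a ≠ 1 := by
      intro v
      obtain ⟨f, hf, a, ha, hfa⟩ := seen_el h (fun v => (hV v).seen) v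
      refine ⟨a, ha, fun h1 => hfa ?_⟩
      have h2 : a = 1 := Subtype.ext h1
      rw [h2]
      exact one_val hf.1
    have hkg := clique_good h U hadj (fun v a ha ha1 n hn han =>
      (hV v).tf ⟨a, ha⟩ (fun h1 => ha1 (congrArg Subtype.val h1)) n hn (Subtype.ext han))
      (fun v hv => (hV v).comm' (hcy v hv)) hsU htU hst.ne (hnt s) (hnt t)
    have hgood : Run7.h79.FJ.Good C (par A U) :=
      good_raag hC hF hB (GProd.par h U) (fun v => ((hV v).cyc (hcy v v.2)).2)
        (fun v => ((hV v).cyc (hcy v v.2)).1)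
    refine kfree hC hF hrel (fun _ => Or.inr ⟨hkg, hgood⟩) ?_ ?_
    · rw [← hM]
      exact hn
    · have h5 : ∀ (M M' : Subgroup G) (hMM : M = M') (i : M.Normal) (i' : M'.Normal),
          C (G ⧸ M) → C (G ⧸ M') := by
        intro M M' hMM i i' h6
        subst hMM
        exact h6
      exact h5 _ _ hM hn _ hQ
  · have hleft : ∀ u ∈ Cl Λ A s, ∀ v, Λ.Adj s v ↔ Λ.Adj u v := by
      intro u hu
      rcases hu with hu | ⟨cs, cu, hsu, hv⟩
      · exact hu
      · exact (hcl ⟨u, hsu, cs, cu, hv⟩).elim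
    obtain ⟨Q, L, hrel⟩ := h.rel (Cl Λ A s)ᶜ (by
      intro v w hv hw hvw
      rw [Set.mem_compl_iff, not_not] at hv hw
      have h1 := (hleft v hv w).2 hvw
      exact ((hleft w hw w).1 h1).ne rfl)
    have hM : MM N Λ A s = nc N (fun u : {v // v ∉ (Cl Λ A s)ᶜ} => A u) := by
      apply nc_congr_le
      · intro u
        exact le_nc (N := N) (A := fun u : {v // v ∉ (Cl Λ A s)ᶜ} => A u) ⟨u.1, fun h => h u.2⟩
      · rintro ⟨u, hu⟩
        rw [Set.mem_compl_iff, not_not] at hu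
        exact le_nc (N := N) (A := fun u : Cl Λ A s => A u) ⟨u, hu⟩
    refine kfree hC hF hrel (fun u => ?_) ?_ ?_
    · rcases (hV u.1).alt with h1 | h1
      · exact Or.inl h1
      · exact Or.inr h1.2
    · rw [← hM]
      exact hn
    · have h5 : ∀ (M M' : Subgroup G) (hMM : M = M') (i : M.Normal) (i' : M'.Normal),
          C (G ⧸ M) → C (G ⧸ M') := by
        intro M M' hMM i i' h6
        subst hMM
        exact h6
      exact h5 _ _ hM hn _ hQ

end step

/-- the induction step in a group in which the subgroup of a class is normal -/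
theorem inner (hC : ClosedE C) (hF : Pool.Agent.R684.FP.FbC C)
    (hB : ∀ (B : Type) [CommGroup B] (α : MulAut B),
      C (B ⋊[zpowersHom (MulAut B) α] Multiplicative ℤ)) {V : Type} [Finite V]
    (IH : ∀ (V' : Type) [Finite V'], Nat.card V' < Nat.card V → ∀ (Λ : SimpleGraph V') (G : Type)
      [Group G] (A : V' → Subgroup G) (N : Subgroup G) [N.Normal], GProd Λ A N →
      (∀ v, Vert C (A v)) → C (G ⧸ N) → C G)
    {G : Type} [Group G] {N : Subgroup G} [hNn : N.Normal] {Λ : SimpleGraph V}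
    {A : V → Subgroup G} (h : GProd Λ A N) (hV : ∀ v, Vert C (A v)) (hQ : C (G ⧸ N)) (s : V)
    (hn : (MM N Λ A s).Normal) : C G := by
  refine step hC hF hB h hV s hn ?_
  obtain ⟨M, hM⟩ : ∃ M, M = MM N Λ A s := ⟨_, rfl⟩
  have hMn : M.Normal := by rw [hM]; exact hn
  suffices h0 : C (G ⧸ M) by
    subst hM
    exact h0
  have hMN : M ≤ N := by
    rw [hM]
    exact nc_le (fun u => h.le u)
  have hMW : M = nc N (fun u : {v // v ∉ (Cl Λ A s)ᶜ} => A u) := by
    rw [hM]
    apply nc_congr_le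
    · intro u
      exact le_nc (N := N) (A := fun u : {v // v ∉ (Cl Λ A s)ᶜ} => A u) ⟨u.1, fun h => h u.2⟩
    · rintro ⟨u, hu⟩
      rw [Set.mem_compl_iff, not_not] at hu
      exact le_nc (N := N) (A := fun u : Cl Λ A s => A u) ⟨u, hu⟩
  have h1 := h.quot (Cl Λ A s)ᶜ M hMW
  have hcard : Nat.card ((Cl Λ A s)ᶜ : Set V) < Nat.card V :=
    Finite.card_subtype_lt (p := fun w => w ∈ ((Cl Λ A s)ᶜ : Set V)) (x := s)
      (fun h => h (mem_Cl s))
  have hn2 : (N.map (QuotientGroup.mk' M)).Normal :=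
    Subgroup.Normal.map hNn _ (QuotientGroup.mk'_surjective _)
  obtain ⟨p, hp⟩ := h.retr
  refine IH _ hcard _ (G ⧸ M) _ _ h1 ?_ ?_
  · intro w
    obtain ⟨e⟩ := map_equiv (QuotientGroup.mk' M) (A w) (fun y hy h2 => by
      have h3 : y ∈ M := (QuotientGroup.eq_one_iff y).1 h2
      rw [hM] at h3
      have h4 : p w ⟨y, h.le w hy⟩ = 1 := by
        refine nc_hom (A := fun u : Cl Λ A s => A u) (fun u => h.le u) (p w) (fun u a ha => ?_)
          h3 _
        exact hp.other w u ⟨a, ha⟩ (fun h5 => w.2 (h5 ▸ u.2))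
      rw [hp.same w ⟨y, hy⟩] at h4
      exact congrArg Subtype.val h4)
    exact (hV w).equiv e
  · exact hC.base.of_injective _ _
      (QuotientGroup.quotientQuotientEquivQuotient M N hMN).toMonoidHom
      (QuotientGroup.quotientQuotientEquivQuotient M N hMN).injective hQ

/-- **extensions by graph products** -/
theorem main_Y (hC : ClosedE C) (hF : Pool.Agent.R684.FP.FbC C)
    (hB : ∀ (B : Type) [CommGroup B] (α : MulAut B),
      C (B ⋊[zpowersHom (MulAut B) α] Multiplicative ℤ)) : ∀ (n : ℕ) (V : Type) [Finite V],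
    Nat.card V = n → ∀ (Λ : SimpleGraph V) (G : Type) [Group G] (A : V → Subgroup G)
      (N : Subgroup G) [N.Normal], GProd Λ A N → (∀ v, Vert C (A v)) → C (G ⧸ N) → C G := by
  intro n
  induction n using Nat.strong_induction_on with
  | _ n ih =>
  intro V _ hcV Λ G _ A N hNn h hV hQ
  rcases isEmpty_or_nonempty V with hemp | hne
  · have hN : N ≤ ⊥ := h.gen ⊥ (fun v => (hemp.false v).elim)
    refine hC.base.of_injective _ _ (QuotientGroup.mk' N) ?_ hQ
    rw [injective_iff_map_eq_one]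
    intro x hx
    exact hN ((QuotientGroup.eq_one_iff x).1 hx)
  have hfd := fin_dim h (fun v => (hV v).fg)
  obtain ⟨s, hs⟩ := Finite.exists_min (fun s => finrank ℚ (KK N A {w | Λ.Adj s w}))
  have hcyc : ∀ g : G, C ↥(N ⊔ Subgroup.zpowers g) := by
    intro g
    obtain ⟨k, hk, hkg⟩ := exists_pow h (fun v => (hV v).seen) (fun v => (hV v).comm)
      (fun v hw => (hV v).comm' hw) hs (s := s) rfl g
    refine Run7.h370.RA.C_pow hC.base N g k hk ?_
    obtain ⟨x, hx⟩ : ∃ x, x = g ^ k := ⟨_, rfl⟩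
    rw [← hx] at hkg ⊢
    obtain ⟨K, hK⟩ : ∃ K, K = N ⊔ Subgroup.zpowers x := ⟨_, rfl⟩
    rw [← hK]
    have hNK : N ≤ K := by rw [hK]; exact le_sup_left
    have hxK : x ∈ K := by rw [hK]; exact Subgroup.mem_sup_right (Subgroup.mem_zpowers x)
    have hKn : (N.subgroupOf K).Normal := inferInstance
    have h' := h.sub K hNK
    have heq : ∀ v, Nonempty (A v ≃* (A v).subgroupOf K) := fun v =>
      ⟨(Subgroup.subgroupOfEquivOfLe ((h.le v).trans hNK)).symm⟩
    have hV' : ∀ v, Vert C ((A v).subgroupOf K) := by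
      intro v
      obtain ⟨e⟩ := heq v
      exact (hV v).equiv e
    have hCl : Cl Λ (fun v => (A v).subgroupOf K) s = Cl Λ A s := by
      have h1 : (fun v => ¬ Wide ((A v).subgroupOf K)) = fun v => ¬ Wide (A v) := by
        funext v
        obtain ⟨e⟩ := heq v
        exact propext (not_congr ⟨fun h => h.equiv e.symm, fun h => h.equiv e⟩)
      show {u | Tw Λ _ s u} = {u | Tw Λ _ s u}
      rw [h1]
    have hMM : MM (N.subgroupOf K) Λ (fun v => (A v).subgroupOf K) s =
        (MM N Λ A s).subgroupOf K := by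
      unfold MM
      rw [hCl]
      exact nc_sub hNK (fun u : Cl Λ A s => A u) (fun u => h.le u)
    have hMN : MM N Λ A s ≤ N := nc_le (fun u => h.le u)
    have hMn : (MM (N.subgroupOf K) Λ (fun v => (A v).subgroupOf K) s).Normal := by
      rw [hMM]
      refine normal_of_gens (N.subgroupOf K) ⟨x, hxK⟩ (sup_top N x K hK hxK) _ ?_ ?_ ?_
      · intro n hn y hy
        exact nc_conj (N := N) (A := fun u : Cl Λ A s => A u) hn hy
      · intro y hy
        exact (hkg _ (hMN hy)).1 hy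
      · intro y hy
        have h2 : x⁻¹ * y * x ∈ N := by
          have := hNn.conj_mem _ (hMN hy) x⁻¹
          rwa [inv_inv] at this
        refine (hkg _ h2).2 ?_
        have h3 : x * (x⁻¹ * y * x) * x⁻¹ = y := by group
        rw [h3]
        exact hy
    have h5 : C (K ⧸ N.subgroupOf K) := by
      refine hC.base.of_injective _ (G ⧸ N) (QuotientGroup.map (N.subgroupOf K) N K.subtype
        (fun x hx => hx)) ?_ hQ
      rw [injective_iff_map_eq_one]
      intro y
      induction y using QuotientGroup.induction_on with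
      | H z =>
        intro hz
        have h1 : z.1 ∈ N := (QuotientGroup.eq_one_iff _).1 hz
        exact (QuotientGroup.eq_one_iff _).2 h1
    refine inner hC hF hB (fun V' _ hV'c => ?_) h' hV' h5 s hMn
    exact ih (Nat.card V') (by rw [← hcV]; exact hV'c) V' rfl
  refine Pool.Agent.Y529.FJ.t_ext C hC G N ?_ hQ fun g _ => hcyc g
  exact C_le hC.base le_sup_left (hcyc 1)

end Run7.h79.FY
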