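import Pool.Agent.Run7.h79.FY.Cent

/-!
# Centralizers in relative graph products with one vertex
-/

set_option autoImplicit false

namespace Run7.h79.FY

open Monoid Run7.h79.FJ Q30.FJ Pool.Agent.Y43.CH

variable {G : Type} [Group G]

/-- **centralizers and homomorphisms to the rational numbers** -/
theorem rel_cent {A₀ Q L₀ N : Subgroup G}
    (h : Rel (⊥ : SimpleGraph Unit) (fun _ => A₀) Q (fun _ => L₀) N) (hA : Comm1 A₀)
    (f : N →* QQ) (hf : ∀ l : N, (l : G) ∈ L₀ → f l = 1) (g k : N) (hfg : f g = 1)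
    (hgk : g * k = k * g) (hgQ : ∀ c : N, ((c⁻¹ * g * c : N) : G) ∉ Q) : f k = 1 := by
  have hLQ : L₀ ≤ Q := h.leL ()
  obtain ⟨L, hL⟩ : ∃ L : Subgroup Q, L = L₀.subgroupOf Q := ⟨_, rfl⟩
  have hL0 : ∀ l : L, ((l : Q) : G) ∈ L₀ := by
    subst hL
    exact fun l => l.2
  have hcom : ∀ (a : A₀) (l : L), (a : G) * (l : Q) = (l : Q) * a :=
    fun a l => h.commL () a a.2 _ (hL0 l)
  let i : Q →* PushoutI (ph A₀ L) := PushoutI.of (φ := ph A₀ L) true
  let j : A₀ × L →* PushoutI (ph A₀ L) := PushoutI.of (φ := ph A₀ L) false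
  have hij : ∀ l : L, i l = j (1, l) := by
    intro l
    have h1 := PushoutI.of_apply_eq_base (ph A₀ L) true l
    have h2 := PushoutI.of_apply_eq_base (ph A₀ L) false l
    exact h1.trans h2.symm
  obtain ⟨Ψ, hΨA, hΨQ⟩ := h.univ (PushoutI (ph A₀ L)) (fun _ => j.comp (MonoidHom.inl A₀ L)) i
    (fun v w hvw => hvw.elim) (by
      intro _ a b
      have hb : (⟨b, hLQ b.2⟩ : Q) ∈ L := by
        rw [hL]
        exact b.2
      have h1 : i ⟨b, hLQ b.2⟩ = j (1, ⟨⟨b, hLQ b.2⟩, hb⟩) := hij ⟨⟨b, hLQ b.2⟩, hb⟩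
      show j (a, 1) * i ⟨b, _⟩ = i ⟨b, _⟩ * j (a, 1)
      rw [h1, ← map_mul, ← map_mul]
      congr 1
      exact Prod.ext ((mul_one _).trans (one_mul _).symm) ((one_mul _).trans (mul_one _).symm))
  let m : A₀ × L →* N := MonoidHom.mk' (fun p => ⟨p.1 * (p.2 : Q), N.mul_mem (h.le () p.1.2)
    (h.leQ (p.2 : Q).2)⟩) (by
      intro p q
      apply Subtype.ext
      show (p.1 * q.1 : G) * ((p.2 : Q) * (q.2 : Q) : G) = p.1 * (p.2 : Q) * (q.1 * (q.2 : Q))
      have h1 := hcom q.1 p.2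
      rw [mul_assoc (p.1 : G), mul_assoc (p.1 : G), ← mul_assoc (q.1 : G), h1]
      group)
  let F : ∀ b, Fam Q (A₀ × L) b →* N := fun b => match b with
    | true => Subgroup.inclusion h.leQ
    | false => m
  have hF : ∀ b, (F b).comp (ph A₀ L b) = (Subgroup.inclusion h.leQ).comp L.subtype := by
    intro b
    cases b
    · ext l
      show (1 : G) * (l : Q) = (l : Q)
      rw [one_mul]
    · rfl
  let Φ : PushoutI (ph A₀ L) →* N := PushoutI.lift F _ hF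
  have hΦi : ∀ q : Q, Φ (i q) = ⟨q, h.leQ q.2⟩ := fun q => PushoutI.lift_of F _ hF (i := true) q
  have hΦj : ∀ p : A₀ × L, Φ (j p) = m p := fun p => PushoutI.lift_of F _ hF (i := false) p
  have hid : ∀ y : N, Φ (Ψ y) = y := by
    have h1 : N ≤ ((Φ.comp Ψ).eqLocus (MonoidHom.id N)).map N.subtype := by
      apply h.gen
      · intro u a ha
        refine ⟨⟨a, h.le () ha⟩, ?_, rfl⟩
        show Φ (Ψ ⟨a, _⟩) = ⟨a, _⟩
        rw [hΨA () ⟨a, ha⟩]
        show Φ (j (⟨a, ha⟩, 1)) = _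
        rw [hΦj]
        apply Subtype.ext
        show a * 1 = a
        rw [mul_one]
      · intro q hq
        refine ⟨⟨q, h.leQ hq⟩, ?_, rfl⟩
        show Φ (Ψ ⟨q, _⟩) = ⟨q, _⟩
        rw [hΨQ ⟨q, hq⟩, hΦi]
    intro y
    obtain ⟨z, hz, hzy⟩ := h1 y.2
    have h2 : z = y := Subtype.ext hzy
    rw [← h2]
    exact hz
  have h1 := cent_P L hA (f.comp Φ) (by
    intro l
    show f (Φ (i (l : Q))) = 1
    rw [hΦi]
    exact hf _ (hL0 l)) (Ψ g) (Ψ k) (by
      show f (Φ (Ψ g)) = 1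
      rw [hid, hfg]) (by rw [← map_mul, hgk, map_mul]) (by
      intro c q hcq
      apply hgQ (Φ c)
      have h2 : Φ (c⁻¹ * Ψ g * c) = Φ (i q) := congrArg Φ hcq
      rw [map_mul, map_mul, map_inv, hid, hΦi] at h2
      rw [h2]
      exact q.2)
  have h2 : f (Φ (Ψ k)) = 1 := h1
  rwa [hid] at h2

end Run7.h79.FY
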